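import Pool.Agent.Helper78.TW.StB

/-!
Project TW, module Stb: a value of the functional of smallest valuation.
-/

set_option autoImplicit false

namespace Pool.Agent.Helper9.TW

open Pool.Agent.Helper14.CV Pool.Agent.Helper28.WK Pool.Agent.Helper78.TW

/-- The complexification of an integral potential. -/
private def cpx (G : ℤ → ℤ → ℤ) : ℤ → ℤ → ℂ := fun p q => ((G p q : ℤ) : ℂ)

private lemma Tl_cpx (l : ℕ) (m : ℤ) (G : ℤ → ℤ → ℤ) : Tl l m (cpx G) = cpx (Tl l m G) := by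
  funext p q
  simp only [Tl, cpx]
  push_cast
  rfl

private lemma Tl_iter_cpx (l : ℕ) (m : ℤ) (i : ℕ) (G : ℤ → ℤ → ℤ) :
    (Tl l m)^[i] (cpx G) = cpx ((Tl l m)^[i] G) := by
  induction i generalizing G with
  | zero => rfl
  | succ i ih => rw [Function.iterate_succ_apply, Function.iterate_succ_apply, Tl_cpx, ih]

private lemma ev_cpx (m : ℤ) (G : ℤ → ℤ → ℤ) (i j : ℕ) :
    ev m (cpx G) i j = ((ev m G i j : ℤ) : ℂ) := by
  simp only [ev, Tl_iter_cpx]
  simp only [cpx]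
  push_cast
  rfl

private lemma Sym_cpx {r s : ℕ} {G : ℤ → ℤ → ℤ} (h : Sym r s G) : Sym r s (cpx G) := by
  refine ⟨fun k p q hk hpq => ?_, fun a b c d hd hb hc => ?_⟩
  · show ((G (k * p) (k * q) : ℤ) : ℂ) = ((G p q : ℤ) : ℂ)
    rw [h.1 k p q hk hpq]
  · obtain ⟨e, he⟩ := h.2 a b c d hd hb hc
    refine ⟨(e : ℂ), fun p q hpq => ?_⟩
    have h1 := he p q hpq
    show ((G (a * p + b * q) (c * p + d * q) : ℤ) : ℂ) = ((G p q : ℤ) : ℂ) + (e : ℂ)
    have h2 : G (a * p + b * q) (c * p + d * q) = G p q + e := h1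
    rw [h2]
    push_cast
    rfl

private lemma ph_sub_sum {D : ℕ} (c : ZMod D → ℂ) {r : ℕ} (G : ℤ → ℤ → ℂ) (y : Fin r → ℂ)
    (K : Fin r → ℤ → ℤ → ℂ) :
    ph D c (G - ∑ k, y k • K k) = ph D c G - ∑ k, y k * ph D c (K k) := by
  unfold ph
  simp only [Pi.sub_apply, Finset.sum_apply, Pi.smul_apply, smul_eq_mul, mul_sub,
    Finset.sum_sub_distrib, Finset.mul_sum]
  congr 1
  rw [Finset.sum_comm]
  refine Finset.sum_congr rfl fun k _ => ?_
  refine Finset.sum_congr rfl fun a _ => ?_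
  ring

private lemma ph_cpx {A : Type} [CommRing A] (ι : A →+* ℂ) (D : ℕ) (c : ZMod D → A)
    (G : ℤ → ℤ → ℤ) : ph D (fun a => ι (c a)) (cpx G) = ι (phz D c G) := by
  unfold phz ph cpx
  rw [map_sum]
  refine Finset.sum_congr rfl fun a _ => ?_
  rw [map_mul, map_intCast]

private lemma indep_cpx {r : ℕ} (G : Fin r → ℤ → ℤ → ℤ) (ij : Fin r → ℕ × ℕ)
    (hdet : Odd (Matrix.det (Matrix.of fun k l => ev 1 (G k) (ij l).1 (ij l).2))) :
    LinearIndependent ℂ (fun k => evL (cpx (G k))) := by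
  set M : Matrix (Fin r) (Fin r) ℤ := Matrix.of fun k l => ev 1 (G k) (ij l).1 (ij l).2 with hM
  have hne : (M.map (Int.castRingHom ℂ)).det ≠ 0 := by
    rw [← RingHom.mapMatrix_apply, ← RingHom.map_det]
    intro h
    have h1 : ((M.det : ℤ) : ℂ) = 0 := h
    have h2 : M.det = 0 := by exact_mod_cast h1
    rw [h2] at hdet
    exact (Int.not_odd_iff_even.mpr (by decide)) hdet
  have hrow : LinearIndependent ℂ (M.map (Int.castRingHom ℂ)).row :=
    Matrix.linearIndependent_rows_of_det_ne_zero hne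
  rw [Fintype.linearIndependent_iff] at hrow ⊢
  intro g hg
  apply hrow g
  funext l
  have h1 := congrFun (congrFun hg (ij l).1) (ij l).2
  simp only [Finset.sum_apply, Pi.smul_apply, smul_eq_mul, Pi.zero_apply] at h1 ⊢
  rw [← h1]
  refine Finset.sum_congr rfl fun k _ => ?_
  congr 1
  show (((ev 1 (G k) (ij l).1 (ij l).2 : ℤ)) : ℂ) = ev 1 (cpx (G k)) (ij l).1 (ij l).2
  rw [ev_cpx]

theorem hStb : StStb := by
  intro hNv hLin hDim hBas A iA iD iV ι hι D c hadm hc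
  have hadm' : Adm D (fun a => ι (c a)) :=
    { odd := hadm.odd
      one := hadm.one
      supp := fun a ha => by rw [hadm.supp a ha, map_zero]
      two := fun a => by rw [hadm.two a]
      neg := fun a => by rw [hadm.neg a]
      inv := fun a b hab => by rw [hadm.inv a b hab]
      sum := by rw [← map_sum, hadm.sum, map_zero] }
  have hc' : (fun a => ι (c a)) ≠ 0 := by
    intro h
    apply hc
    funext a
    apply hι
    rw [Pi.zero_apply, map_zero]
    exact congrFun h a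
  obtain ⟨n, G, hn, hG, hne⟩ := hNv D _ hadm' hc'
  obtain ⟨Gk, ij, hGk, hdet⟩ := hBas n hn
  have hind := indep_cpx Gk ij hdet
  have hmem := hDim n (fun k => cpx (Gk k)) hn (fun k => Sym_cpx (hGk k)) hind G hG
  obtain ⟨y, hy⟩ := (Submodule.mem_span_range_iff_exists_fun ℂ).mp hmem
  have hsum : ∑ k, y k • cpx (Gk k) ∈ XS n :=
    Submodule.sum_mem _ fun k _ => Submodule.smul_mem _ _ (Sym_cpx (hGk k))
  have hH : Sym 0 n (G - ∑ k, y k • cpx (Gk k)) := (XS n).sub_mem hG hsum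
  have hev : ∀ i j : ℕ, ev 1 (G - ∑ k, y k • cpx (Gk k)) i j = 0 := by
    have h1 : evL (G - ∑ k, y k • cpx (Gk k)) = 0 := by
      rw [map_sub, map_sum, ← hy, sub_eq_zero]
      refine Finset.sum_congr rfl fun k _ => ?_
      rw [map_smul]
    intro i j
    exact congrFun (congrFun h1 i) j
  have h0 := hLin D _ hadm' n hn _ hH hev
  rw [ph_sub_sum] at h0
  obtain ⟨k, hk⟩ : ∃ k, phz D c (Gk k) ≠ 0 := by
    by_contra hcon
    push Not at hcon
    apply hne
    rw [Finset.sum_eq_zero, sub_zero] at h0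
    · exact h0
    · intro k _
      rw [ph_cpx, hcon k, map_zero, mul_zero]
  -- the minimum
  let S : Set A := {x | x ≠ 0 ∧ ∃ (m : ℕ) (h : ℤ → ℤ → ℤ), 5 ≤ m ∧ Sym 0 m h ∧ phz D c h = x}
  have hS : S.Nonempty := ⟨phz D c (Gk k), hk, n, Gk k, hn, hGk k, rfl⟩
  obtain ⟨x, hxS, hmin⟩ := WellFounded.has_min
    (InvImage.wf (fun x : A => IsDiscreteValuationRing.addVal A x) wellFounded_lt) S hS
  obtain ⟨hx0, n1, Gs, hn1, hGs, hGx⟩ := hxS
  refine ⟨n1, Gs, hn1, hGs, by rw [hGx]; exact hx0, ?_⟩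
  intro m h hm hh
  rw [hGx]
  by_cases hz : phz D c h = 0
  · rw [hz]
    exact dvd_zero _
  · have h1 : ¬ IsDiscreteValuationRing.addVal A (phz D c h)
        < IsDiscreteValuationRing.addVal A x := hmin _ ⟨hz, m, h, hm, hh, rfl⟩
    exact IsDiscreteValuationRing.addVal_le_iff_dvd.mp (not_lt.mp h1)

end Pool.Agent.Helper9.TW
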