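import Pool.Agent.Helper9.TW.St

set_option autoImplicit false

namespace Pool.Agent.Helper9.TW

open Finset
open Pool.Agent.Helper9.SU (QQ)

theorem Fb_congr_C1 (p : ℤ) (a b a' b' : ℕ) (ha : (a : ℤ) ≡ a' [ZMOD p]) (hb : (b : ℤ) ≡ b' [ZMOD p]) :
    Fb a b ≡ Fb a' b' [ZMOD p] := by
  unfold Fb QQ
  refine Int.ModEq.mul ((ha.mul hb).add_right 1) (Int.ModEq.add ?_ ?_)
  · exact ((ha.add_right 2).sub hb).pow 2
  · exact (ha.add_right 1).mul ((hb.sub (Int.ModEq.refl _)).pow 2)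

theorem fin_C1 : ∀ a < 30, ∃ b < 30,
    ¬ (2 : ℤ) ∣ Fb a b ∧ ¬ (3 : ℤ) ∣ Fb a b ∧ ¬ (5 : ℤ) ∣ Fb a b := by
  unfold Fb QQ
  decide +kernel

theorem part1_C1 (a : ℕ) : ∃ b0 : ℕ, b0 < 30 ∧ ∀ b : ℕ, b % 30 = b0 →
    ¬ (2 : ℤ) ∣ Fb a b ∧ ¬ (3 : ℤ) ∣ Fb a b ∧ ¬ (5 : ℤ) ∣ Fb a b := by
  obtain ⟨b0, hb0, h⟩ := fin_C1 (a % 30) (Nat.mod_lt _ (by norm_num))
  refine ⟨b0, hb0, fun b hb => ?_⟩
  have hA : (((a % 30 : ℕ)) : ℤ) ≡ (a : ℤ) [ZMOD 30] := by
    push_cast
    exact Int.mod_modEq _ _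
  have hB : (b0 : ℤ) ≡ (b : ℤ) [ZMOD 30] := by
    rw [← hb]; push_cast
    exact Int.mod_modEq _ _
  have key : ∀ p : ℤ, p ∣ 30 → (p ∣ Fb a b ↔ p ∣ Fb (a % 30) b0) := by
    intro p hp
    have h1 := Fb_congr_C1 p (a % 30) b0 a b (hA.of_dvd hp) (hB.of_dvd hp)
    rw [← Int.modEq_zero_iff_dvd, ← Int.modEq_zero_iff_dvd]
    exact ⟨fun h => h1.trans h, fun h => h1.symm.trans h⟩
  rw [key 2 (by norm_num), key 3 (by norm_num), key 5 (by norm_num)]
  exact h

open Polynomial in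
theorem part2_C1 (a p : ℕ) (hp : p.Prime) (h7 : 7 ≤ p) : rt a p ≤ 3 := by
  have : Fact p.Prime := ⟨hp⟩
  set A : (ZMod p)[X] := C (a : ZMod p) * X + 1 with hA
  set B : (ZMod p)[X] := C ((a : ZMod p) + 2) * X ^ 2 + C (-(4 * (a : ZMod p) + 6)) * X +
    C (((a : ZMod p) + 2) ^ 2 + a + 1) with hB
  have hA0 : A ≠ 0 := by
    intro h
    have := congrArg (fun q => Polynomial.coeff q 0) h
    simp [hA] at this
  have h2 : (2 : ZMod p) ≠ 0 := by
    intro h
    have h3 : ((2 : ℕ) : ZMod p) = 0 := by exact_mod_cast h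
    rw [ZMod.natCast_eq_zero_iff] at h3
    have := Nat.le_of_dvd (by norm_num) h3
    omega
  have hc2 : ∀ x y z : ZMod p, (C x * X ^ 2 + C y * X + C z : (ZMod p)[X]).coeff 2 = x := by
    intro x y z
    simp [Polynomial.coeff_X, Polynomial.coeff_C]
  have hc1 : ∀ x y z : ZMod p, (C x * X ^ 2 + C y * X + C z : (ZMod p)[X]).coeff 1 = y := by
    intro x y z
    simp [Polynomial.coeff_C, Polynomial.coeff_X_pow]
  have hB0 : B ≠ 0 := by
    intro h
    have e2 : (a : ZMod p) + 2 = 0 := by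
      have := congrArg (fun q => Polynomial.coeff q 2) h
      simp only [hB, hc2, Polynomial.coeff_zero] at this
      exact this
    have e1 : -(4 * (a : ZMod p) + 6) = 0 := by
      have := congrArg (fun q => Polynomial.coeff q 1) h
      simp only [hB, hc1, Polynomial.coeff_zero] at this
      exact this
    apply h2
    linear_combination 4 * e2 + e1
  have hP0 : A * B ≠ 0 := mul_ne_zero hA0 hB0
  have hdeg : (A * B).natDegree ≤ 3 := by
    have h1 : A.natDegree ≤ 1 := by rw [hA]; compute_degree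
    have h3 : B.natDegree ≤ 2 := by rw [hB]; compute_degree
    have := Polynomial.natDegree_mul_le (p := A) (q := B)
    omega
  have hroot : ∀ r : ℕ, (p : ℤ) ∣ Fb a r → (A * B).IsRoot (r : ZMod p) := by
    intro r hr
    rw [← ZMod.intCast_zmod_eq_zero_iff_dvd] at hr
    unfold Fb QQ at hr
    push_cast at hr
    rw [Polynomial.IsRoot.def, Polynomial.eval_mul, hA, hB]
    simp only [Polynomial.eval_add, Polynomial.eval_mul, Polynomial.eval_C, Polynomial.eval_X,
      Polynomial.eval_one, Polynomial.eval_pow]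
    rw [← hr]
    ring
  unfold rt
  have hinj : ((range p).filter (fun r : ℕ => (p : ℤ) ∣ Fb a r)).card ≤
      ((A * B).roots.toFinset).card := by
    apply Finset.card_le_card_of_injOn (fun r : ℕ => (r : ZMod p))
    · intro r hr
      simp only [Finset.coe_filter, Set.mem_ofPred_eq, mem_range] at hr
      rw [Finset.mem_coe, Multiset.mem_toFinset, Polynomial.mem_roots hP0]
      exact hroot r hr.2
    · intro r hr r' hr' h
      simp only [Finset.coe_filter, Set.mem_ofPred_eq, mem_range] at hr hr'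
      have h1 := (ZMod.natCast_eq_natCast_iff _ _ _).mp h
      exact Nat.ModEq.eq_of_lt_of_lt h1 hr.1 hr'.1
  refine le_trans hinj (le_trans (Multiset.toFinset_card_le _) (le_trans (Polynomial.card_roots' _) hdeg))

theorem hC1 : StC1 := ⟨part1_C1, fun a p hp h7 => part2_C1 a p hp h7⟩

end Pool.Agent.Helper9.TW
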