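import Pool.Agent.Helper9.TW.St

set_option autoImplicit false

namespace Pool.Agent.Helper9.TW

open Finset

theorem hC3 (hL : StBL) (h2 : StC2) : StC3 := by
  intro δ hδ hδ1
  obtain ⟨C, hC, hBL⟩ := hL δ hδ hδ1
  refine ⟨C, hC, ?_⟩
  intro a b0 T B al be ha hb0 hT hd hal hbe hcal hcbe
  have hB0 : 0 ≤ B := le_trans (abs_nonneg _) (hal 0)
  obtain ⟨hcard, hiff⟩ := h2 a b0 T hb0 hT
  set d : ℕ := 30 * ∏ p ∈ T, p with hdd
  have hTpos : 0 < ∏ p ∈ T, p := Finset.prod_pos fun p hp => (hT p hp).1.pos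
  have hdpos : 0 < d := by rw [hdd]; omega
  have har : (1 : ℝ) ≤ (a : ℝ) := by exact_mod_cast ha
  have hapow : 0 ≤ (a : ℝ) ^ (1 - δ / 20) := Real.rpow_nonneg (by linarith) _
  set R : Finset ℕ := (range d).filter (fun β : ℕ => β % 30 = b0 ∧ ∀ p ∈ T, (p : ℤ) ∣ Fb a β) with hR
  set M := ⌊(a : ℝ) ^ (1 - δ)⌋₊ with hM
  set N := ⌊(a : ℝ) ^ (1 / 8 - δ)⌋₊ with hN
  -- first term
  have h1 : ∑ b ∈ (Bb a).filter (fun b => b % 30 = b0 ∧ ∀ p ∈ T, (p : ℤ) ∣ Fb a b),
      ∑ m ∈ Icc 1 M, ∑ n ∈ Icc 1 N,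
        al m * be n * (if m * n ∣ a * b + 1 then (1 : ℝ) else 0) =
      ∑ β ∈ R, ∑ m ∈ Icc 1 M, ∑ n ∈ Icc 1 N, al m * be n * (cb a d β (m * n) : ℝ) := by
    have hfib : ∀ b ∈ (Bb a).filter (fun b => b % 30 = b0 ∧ ∀ p ∈ T, (p : ℤ) ∣ Fb a b),
        b % d ∈ R := by
      intro b hb
      rw [mem_filter] at hb
      rw [hR, mem_filter, mem_range]
      exact ⟨Nat.mod_lt _ hdpos, (hiff b).mp hb.2⟩
    rw [← Finset.sum_fiberwise_of_maps_to hfib]
    refine Finset.sum_congr rfl fun β hβ => ?_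
    rw [Finset.sum_comm]
    refine Finset.sum_congr rfl fun m _ => ?_
    rw [Finset.sum_comm]
    refine Finset.sum_congr rfl fun n _ => ?_
    rw [← Finset.mul_sum]
    congr 1
    rw [Finset.sum_ite, Finset.sum_const_zero, add_zero, Finset.sum_const, nsmul_eq_mul, mul_one]
    unfold cb
    congr 2
    rw [hR, mem_filter] at hβ
    ext b
    simp only [mem_filter]
    constructor
    · rintro ⟨⟨⟨hb, _⟩, h⟩, h'⟩
      exact ⟨hb, h, h'⟩
    · rintro ⟨hb, h, h'⟩
      refine ⟨⟨⟨hb, ?_⟩, h⟩, h'⟩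
      rw [hiff b, h]
      exact hβ.2
  -- second term
  have h3 : ((Bb a).card : ℝ) / 30 * (∏ p ∈ T, ga a p) *
      ∑ m ∈ Icc 1 M, ∑ n ∈ Icc 1 N, al m * be n / (m * n) =
      ∑ β ∈ R, ∑ m ∈ Icc 1 M, ∑ n ∈ Icc 1 N, al m * be n * (((Bb a).card : ℝ) / (d * m * n)) := by
    rw [Finset.sum_const, nsmul_eq_mul, hcard]
    have h4 : (∏ p ∈ T, ga a p) = ((∏ p ∈ T, rt a p : ℕ) : ℝ) / ((∏ p ∈ T, p : ℕ) : ℝ) := by
      unfold ga
      rw [Finset.prod_div_distrib]
      push_cast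
      rfl
    have h5 : ((∏ p ∈ T, p : ℕ) : ℝ) ≠ 0 := by
      have : (0 : ℝ) < ((∏ p ∈ T, p : ℕ) : ℝ) := by exact_mod_cast hTpos
      exact this.ne'
    have h6 : (d : ℝ) = 30 * ((∏ p ∈ T, p : ℕ) : ℝ) := by rw [hdd]; push_cast; ring
    rw [h4, Finset.mul_sum, Finset.mul_sum]
    refine Finset.sum_congr rfl fun m hm => ?_
    rw [Finset.mul_sum, Finset.mul_sum]
    refine Finset.sum_congr rfl fun n hn => ?_
    rw [mem_Icc] at hm hn
    have hm0 : (m : ℝ) ≠ 0 := by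
      have : (0 : ℝ) < (m : ℝ) := by exact_mod_cast hm.1
      exact this.ne'
    have hn0 : (n : ℝ) ≠ 0 := by
      have : (0 : ℝ) < (n : ℝ) := by exact_mod_cast hn.1
      exact this.ne'
    rw [h6]
    have key : ∀ X Y Z u v x y : ℝ, Y ≠ 0 → x ≠ 0 → y ≠ 0 →
        X / 30 * (Z / Y) * (u * v / (x * y)) = Z * (u * v * (X / (30 * Y * x * y))) := by
      intro X Y Z u v x y h1 h2 h3
      field_simp
    exact key _ _ _ _ _ _ _ h5 hm0 hn0
  rw [h1, h3, ← Finset.sum_sub_distrib]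
  -- one class
  have hone : ∀ β ∈ R, |∑ m ∈ Icc 1 M, ∑ n ∈ Icc 1 N, al m * be n * (cb a d β (m * n) : ℝ) -
      ∑ m ∈ Icc 1 M, ∑ n ∈ Icc 1 N, al m * be n * (((Bb a).card : ℝ) / (d * m * n))| ≤
      C * B ^ 2 * (a : ℝ) ^ (1 - δ / 20) := by
    intro β hβ
    have hβd : β < d := by
      rw [hR, mem_filter, mem_range] at hβ
      exact hβ.1
    rcases hB0.eq_or_lt with hB | hB
    · have hz : ∀ m, al m = 0 := fun m => by
        have := hal m
        rw [← hB] at this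
        exact abs_nonpos_iff.mp this
      simp only [hz, zero_mul, Finset.sum_const_zero, sub_self, abs_zero]
      rw [← hB]; simp
    · have h7 := hBL a d β (fun m => al m / B) (fun n => be n / B) ha hdpos hd hβd
        (fun m => by rw [abs_div, abs_of_pos hB]; exact (div_le_one hB).mpr (hal m))
        (fun n => by rw [abs_div, abs_of_pos hB]; exact (div_le_one hB).mpr (hbe n))
      have h8 : ∑ m ∈ Icc 1 M, ∑ n ∈ Icc 1 N, al m * be n * (cb a d β (m * n) : ℝ) -
          ∑ m ∈ Icc 1 M, ∑ n ∈ Icc 1 N, al m * be n * (((Bb a).card : ℝ) / (d * m * n)) =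
          B ^ 2 * ∑ m ∈ (Icc 1 M).filter (fun m => Nat.Coprime m (a * d)),
            ∑ n ∈ (Icc 1 N).filter (fun n => Nat.Coprime n (a * d)),
            (al m / B) * (be n / B) * ((cb a d β (m * n) : ℝ) - ((Bb a).card : ℝ) / (d * m * n)) := by
        rw [← Finset.sum_sub_distrib, Finset.mul_sum, Finset.sum_filter]
        refine Finset.sum_congr rfl fun m _ => ?_
        rw [← Finset.sum_sub_distrib]
        by_cases hm : Nat.Coprime m (a * d)
        · rw [if_pos hm, Finset.mul_sum, Finset.sum_filter]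
          refine Finset.sum_congr rfl fun n _ => ?_
          by_cases hn : Nat.Coprime n (a * d)
          · rw [if_pos hn]
            field_simp
          · rw [if_neg hn]
            have : be n = 0 := by
              by_contra h
              exact hn (hcbe n h)
            rw [this]; ring
        · rw [if_neg hm]
          have : al m = 0 := by
            by_contra h
            exact hm (hcal m h)
          simp [this]
      rw [h8, abs_mul, abs_of_nonneg (sq_nonneg B)]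
      calc B ^ 2 * _ ≤ B ^ 2 * (C * (a : ℝ) ^ (1 - δ / 20)) := mul_le_mul_of_nonneg_left h7 (sq_nonneg B)
        _ = C * B ^ 2 * (a : ℝ) ^ (1 - δ / 20) := by ring
  refine le_trans (Finset.abs_sum_le_sum_abs _ _) (le_trans (Finset.sum_le_sum hone) ?_)
  rw [Finset.sum_const, nsmul_eq_mul, hcard]
  push_cast
  exact le_refl _

end Pool.Agent.Helper9.TW
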