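import Pool.Agent.Helper9.TW.St

set_option autoImplicit false

namespace Pool.Agent.Helper9.TW

open Finset

theorem hC9 : StC9 := by
  intro I₀ A t₀ t₁ Ap Am s e Aj c hI0 hI1 hA0 hA1 ht1 ht0 hAm hAp hc hj
  have ht0' : 0 ≤ t₀ := le_trans hI0 ht0
  have hAp0 : 0 ≤ Ap := le_trans hA0 hAp
  have h1 : ∑ j ∈ s, c j * (I₀ * A * e j) ≤ ∑ j ∈ s, c j * (t₀ * Aj j) := by
    refine Finset.sum_le_sum fun j hjs => ?_
    refine mul_le_mul_of_nonneg_left ?_ (hc j hjs).1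
    have h2 : I₀ * A * e j = I₀ * (A * e j) := by ring
    rw [h2]
    have h3 : 0 ≤ A * e j := mul_nonneg hA0 (hc j hjs).2
    calc I₀ * (A * e j) ≤ t₀ * (A * e j) := mul_le_mul_of_nonneg_right ht0 h3
      _ ≤ t₀ * Aj j := mul_le_mul_of_nonneg_left (hj j hjs) ht0'
  have h4 : I₀ * A * (1 - ∑ j ∈ s, c j * e j) = I₀ * A - ∑ j ∈ s, c j * (I₀ * A * e j) := by
    rw [mul_sub, mul_one, Finset.mul_sum]
    congr 1
    refine Finset.sum_congr rfl fun j _ => ?_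
    ring
  rw [h4]
  have h5 : t₀ * Am + t₁ * Ap - t₀ * Ap ≤ I₀ * A := by
    have h6 : 0 ≤ t₀ * (A - Am) := mul_nonneg ht0' (by linarith)
    have h7 : 0 ≤ (t₀ - I₀) * (Ap - A) := mul_nonneg (by linarith) (by linarith)
    have h8 : 0 ≤ (I₀ - t₁) * Ap := mul_nonneg (by linarith) hAp0
    nlinarith
  linarith

end Pool.Agent.Helper9.TW
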