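import Pool.Agent.Helper9.TW.St

set_option autoImplicit false

namespace Pool.Agent.Helper9.TW

open Finset

theorem gm_le_D1 (j : ℕ) (hj : 1 ≤ j) : gm j ≤ 1 / (j : ℝ) := by
  have h0 : (0 : ℝ) < j := by exact_mod_cast hj
  unfold gm
  have h1 : (0 : ℝ) < ((j : ℝ) + 1) / j := by positivity
  have h2 := Real.log_le_sub_one_of_pos h1
  have h3 : ((j : ℝ) + 1) / j - 1 = 1 / j := by field_simp; ring
  linarith

theorem gm_ge_D1 (j : ℕ) (hj : 1 ≤ j) : 1 / ((j : ℝ) + 1) ≤ gm j := by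
  have h0 : (0 : ℝ) < j := by exact_mod_cast hj
  unfold gm
  have h1 : (0 : ℝ) < ((j : ℝ) + 1) / j := by positivity
  have h2 := Real.one_sub_inv_le_log_of_pos h1
  have h3 : 1 - (((j : ℝ) + 1) / j)⁻¹ = 1 / ((j : ℝ) + 1) := by field_simp; ring
  linarith

/-- the basic estimate -/
theorem q_D1 (S s j : ℝ) (_hS : 0 ≤ S) (hj : 200 * (S + 1) ≤ j) (hs : 4 ≤ s) (hsS : s ≤ S) :
    Real.exp (-S) / (5 * j) ≤
      j / (j + 1) * Real.exp (-(s - s / (j + 1))) - Real.exp (-s) -
        (1 / j) * Real.exp (-(s - 1 - 1 / j)) := by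
  have hj0 : (0 : ℝ) < j := by nlinarith
  have hj200 : (200 : ℝ) ≤ j := by nlinarith
  have hj1 : (0 : ℝ) < j + 1 := by linarith
  have e1 : Real.exp (-(s - s / (j + 1))) = Real.exp (-s) * Real.exp (s / (j + 1)) := by
    rw [← Real.exp_add]; congr 1; ring
  have e2 : Real.exp (-(s - 1 - 1 / j)) = Real.exp (-s) * (Real.exp 1 * Real.exp (1 / j)) := by
    rw [← Real.exp_add, ← Real.exp_add]; congr 1; ring
  have h1 : 1 + s / (j + 1) ≤ Real.exp (s / (j + 1)) := by
    have := Real.add_one_le_exp (s / (j + 1)); linarith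
  have h2 : Real.exp (1 / j) ≤ 1 + 2 / j := by
    have h3 : 1 - 1 / j ≤ Real.exp (-(1 / j)) := by
      have := Real.add_one_le_exp (-(1 / j)); linarith
    have h4 : 0 < 1 - 1 / j := by
      have : 1 / j ≤ 1 / 200 := by
        apply one_div_le_one_div_of_le <;> linarith
      linarith
    rw [Real.exp_neg] at h3
    have h5 : Real.exp (1 / j) ≤ (1 - 1 / j)⁻¹ := by
      rw [le_inv_comm₀ (Real.exp_pos _) h4]; exact h3
    have h6 : (1 - 1 / j)⁻¹ ≤ 1 + 2 / j := by
      rw [inv_le_comm₀ h4 (by positivity)]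
      rw [inv_le_comm₀ (by positivity) h4] at *
      rw [inv_eq_one_div, div_le_iff₀ h4]
      have : (1 + 2 / j) * (1 - 1 / j) = 1 + (j - 2) / j ^ 2 := by field_simp; ring
      rw [this]
      have : 0 ≤ (j - 2) / j ^ 2 := by apply div_nonneg <;> nlinarith
      linarith
    linarith
  have h3 : Real.exp 1 ≤ 2719 / 1000 := by
    have := Real.exp_one_lt_d9; linarith
  have h4 : Real.exp 1 * Real.exp (1 / j) ≤ 2719 / 1000 * (1 + 2 / j) := by
    apply mul_le_mul h3 h2 (Real.exp_pos _).le (by norm_num)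
  have hE : 0 < Real.exp (-s) := Real.exp_pos _
  have hES : Real.exp (-S) ≤ Real.exp (-s) := Real.exp_le_exp.mpr (by linarith)
  rw [e1, e2]
  -- the bracket
  have hb : 1 / (5 * j) ≤ j / (j + 1) * (1 + s / (j + 1)) - 1 - (1 / j) * (2719 / 1000 * (1 + 2 / j)) := by
    have h5 : j / (j + 1) * (1 + s / (j + 1)) - 1 = ((s - 1) - s / (j + 1)) / (j + 1) := by
      field_simp; ring
    rw [h5]
    have h6 : s / (j + 1) ≤ 1 / 200 := by
      rw [div_le_iff₀ hj1]; nlinarith
    have h7 : 2 / j ≤ 1 / 100 := by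
      rw [div_le_iff₀ hj0]; nlinarith
    have h8 : (1 / j) * (2719 / 1000 * (1 + 2 / j)) ≤ (1 / j) * (2747 / 1000) := by
      apply mul_le_mul_of_nonneg_left _ (by positivity)
      nlinarith
    have h9 : ((s - 1) - s / (j + 1)) / (j + 1) ≥ (2995 / 1000) / (j + 1) := by
      apply div_le_div_of_nonneg_right _ hj1.le
      linarith
    have h10 : (2995 / 1000) / (j + 1) ≥ (2975 / 1000) / j := by
      rw [ge_iff_le, div_le_div_iff₀ hj0 hj1]
      nlinarith
    have h11 : 1 / (5 * j) + (1 / j) * (2747 / 1000) = (2947 / 1000) / j := by field_simp; ring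
    have h12 : (2947 / 1000) / j ≤ (2975 / 1000) / j := by
      apply div_le_div_of_nonneg_right _ hj0.le; norm_num
    linarith
  have hpos : 0 ≤ 1 / (5 * j) := by positivity
  have hA : j / (j + 1) * (Real.exp (-s) * Real.exp (s / (j + 1))) - Real.exp (-s) -
      1 / j * (Real.exp (-s) * (Real.exp 1 * Real.exp (1 / j))) ≥
      Real.exp (-s) * (j / (j + 1) * (1 + s / (j + 1)) - 1 - (1 / j) * (2719 / 1000 * (1 + 2 / j))) := by
    have h13 : j / (j + 1) * (Real.exp (-s) * Real.exp (s / (j + 1))) ≥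
        Real.exp (-s) * (j / (j + 1) * (1 + s / (j + 1))) := by
      have : j / (j + 1) * (Real.exp (-s) * Real.exp (s / (j + 1))) =
        Real.exp (-s) * (j / (j + 1) * Real.exp (s / (j + 1))) := by ring
      rw [this]
      apply mul_le_mul_of_nonneg_left _ hE.le
      apply mul_le_mul_of_nonneg_left h1 (by positivity)
    have h14 : 1 / j * (Real.exp (-s) * (Real.exp 1 * Real.exp (1 / j))) ≤
        Real.exp (-s) * ((1 / j) * (2719 / 1000 * (1 + 2 / j))) := by
      have : 1 / j * (Real.exp (-s) * (Real.exp 1 * Real.exp (1 / j))) =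
        Real.exp (-s) * ((1 / j) * (Real.exp 1 * Real.exp (1 / j))) := by ring
      rw [this]
      apply mul_le_mul_of_nonneg_left _ hE.le
      apply mul_le_mul_of_nonneg_left h4 (by positivity)
    nlinarith
  have hB : Real.exp (-s) * (1 / (5 * j)) ≤
      Real.exp (-s) * (j / (j + 1) * (1 + s / (j + 1)) - 1 - (1 / j) * (2719 / 1000 * (1 + 2 / j))) :=
    mul_le_mul_of_nonneg_left hb hE.le
  have hC : Real.exp (-S) / (5 * j) ≤ Real.exp (-s) * (1 / (5 * j)) := by
    have : Real.exp (-S) / (5 * j) = Real.exp (-S) * (1 / (5 * j)) := by ring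
    rw [this]
    exact mul_le_mul_of_nonneg_right hES hpos
  linarith

/-- the estimate for small `s` -/
theorem small_D1 (s j : ℝ) (hj : 200 ≤ j) (hs3 : 3 ≤ s - s / (j + 1)) (hs5 : s - s / (j + 1) ≤ 5) :
    (1 + 40 * Real.exp (-s)) ≤ j / (j + 1) * (1 + 40 * Real.exp (-(s - s / (j + 1)))) := by
  have hj0 : (0 : ℝ) < j := by linarith
  have hj1 : (0 : ℝ) < j + 1 := by linarith
  have es : s - s / (j + 1) = s * (j / (j + 1)) := by field_simp; ring
  set t := s - s / (j + 1) with ht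
  have hst : s = t + t / j := by
    rw [es]; field_simp
  have hst1 : s / (j + 1) = t / j := by
    rw [es]; field_simp
  have hE : 0 < Real.exp (-s) := Real.exp_pos _
  -- exp s ≤ 40 (t - 1)
  have h1 : 6 - t ≤ Real.exp (5 - t) := by
    have := Real.add_one_le_exp (5 - t); linarith
  have h2 : Real.exp 5 ≤ 1485 / 10 := by
    have h3 : Real.exp 5 = Real.exp 1 ^ 5 := by
      rw [← Real.exp_nat_mul]; norm_num
    rw [h3]
    have h4 : Real.exp 1 ≤ 27182818286 / 10000000000 := by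
      have := Real.exp_one_lt_d9; linarith
    calc Real.exp 1 ^ 5 ≤ (27182818286 / 10000000000) ^ 5 :=
          pow_le_pow_left₀ (Real.exp_pos _).le h4 5
      _ ≤ 1485 / 10 := by norm_num
  have h5 : Real.exp t * (6 - t) ≤ 1485 / 10 := by
    calc Real.exp t * (6 - t) ≤ Real.exp t * Real.exp (5 - t) :=
          mul_le_mul_of_nonneg_left h1 (Real.exp_pos _).le
      _ = Real.exp 5 := by rw [← Real.exp_add]; congr 1; ring
      _ ≤ 1485 / 10 := h2
  have h6 : 4 ≤ (t - 1) * (6 - t) := by nlinarith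
  have h7 : Real.exp t ≤ 1485 / 40 * (t - 1) := by
    have h8 : 0 < 6 - t := by linarith
    have h9 : Real.exp t * 4 ≤ 1485 / 10 * (t - 1) := by
      calc Real.exp t * 4 ≤ Real.exp t * ((t - 1) * (6 - t)) :=
            mul_le_mul_of_nonneg_left h6 (Real.exp_pos _).le
        _ = (Real.exp t * (6 - t)) * (t - 1) := by ring
        _ ≤ 1485 / 10 * (t - 1) := mul_le_mul_of_nonneg_right h5 (by linarith)
    linarith
  have h8 : Real.exp (t / j) ≤ 1027 / 1000 := by
    have h9 : t / j ≤ 1 / 40 := by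
      rw [div_le_iff₀ hj0]; nlinarith
    have h10 : 1 - 1 / 40 ≤ Real.exp (-(t / j)) := by
      have := Real.add_one_le_exp (-(t / j)); linarith
    rw [Real.exp_neg] at h10
    have h11 : Real.exp (t / j) ≤ (1 - 1 / 40 : ℝ)⁻¹ := by
      rw [le_inv_comm₀ (Real.exp_pos _) (by norm_num)]; exact h10
    have h12 : (1 - 1 / 40 : ℝ)⁻¹ ≤ 1027 / 1000 := by norm_num
    linarith
  have h9 : Real.exp s ≤ 40 * (t - 1) := by
    rw [hst, Real.exp_add]
    calc Real.exp t * Real.exp (t / j) ≤ (1485 / 40 * (t - 1)) * (1027 / 1000) :=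
          mul_le_mul h7 h8 (Real.exp_pos _).le (by nlinarith)
      _ ≤ 40 * (t - 1) := by nlinarith
  have h10 : 1 ≤ 40 * Real.exp (-s) * (t - 1) := by
    rw [Real.exp_neg]
    have h11 := Real.exp_pos s
    have : 40 * (Real.exp s)⁻¹ * (t - 1) = (40 * (t - 1)) / Real.exp s := by field_simp
    rw [this, le_div_iff₀ h11]; linarith
  -- exp (-t) ≥ exp(-s) (1 + t / j)
  have h11 : Real.exp (-s) * (1 + t / j) ≤ Real.exp (-t) := by
    have h12 : Real.exp (-t) = Real.exp (-s) * Real.exp (t / j) := by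
      rw [← Real.exp_add]; congr 1; rw [hst]; ring
    rw [h12]
    apply mul_le_mul_of_nonneg_left _ hE.le
    have := Real.add_one_le_exp (t / j); linarith
  have h12 : j / (j + 1) * (1 + 40 * (Real.exp (-s) * (1 + t / j))) ≤
      j / (j + 1) * (1 + 40 * Real.exp (-t)) := by
    apply mul_le_mul_of_nonneg_left _ (by positivity)
    linarith
  refine le_trans ?_ h12
  rw [div_mul_eq_mul_div, le_div_iff₀ hj1]
  have h13 : j * (1 + 40 * (Real.exp (-s) * (1 + t / j))) =
      j + 40 * Real.exp (-s) * j + 40 * Real.exp (-s) * t := by field_simp; ring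
  rw [h13]
  nlinarith

theorem hD1 : StD1 := by
  intro S
  refine ⟨⌈((S : ℝ) + 1) * Real.exp S⌉₊ + 200 * (S + 1), ?_⟩
  intro j0 hj0 U L hax
  have hSr : (0 : ℝ) ≤ (S : ℝ) := Nat.cast_nonneg S
  have hj0pos : (0 : ℝ) < (j0 : ℝ) := by
    have : 0 < j0 := by omega
    exact_mod_cast this
  -- facts for j ≥ j0
  have hfact : ∀ j : ℕ, j0 ≤ j → 200 * ((S : ℝ) + 1) ≤ j ∧ ((S : ℝ) + 1) * Real.exp S ≤ j := by
    intro j hj
    constructor
    · have : 200 * (S + 1) ≤ j := by omega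
      exact_mod_cast this
    · have h1 : ⌈((S : ℝ) + 1) * Real.exp S⌉₊ ≤ j := by omega
      exact le_trans (Nat.le_ceil _) (by exact_mod_cast h1)
  have main : ∀ j : ℕ, j0 ≤ j → ∀ N : ℕ, N ≤ S * j0 →
      (4 * j ≤ N → ∃ μ : ℝ, L N j μ ∧ (j0 : ℝ) / j * (1 - 40 * Real.exp (-((N : ℝ) / j))) ≤ μ) ∧
      (3 * j ≤ N → ∃ μ : ℝ, U N j μ ∧ μ ≤ (j0 : ℝ) / j * (1 + 40 * Real.exp (-((N : ℝ) / j)))) := by
    intro j hj
    induction j, hj using Nat.le_induction with
    | base =>
      intro N hN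
      have h1 : (j0 : ℝ) / j0 = 1 := div_self hj0pos.ne'
      refine ⟨fun _ => ⟨1, hax.l0 N hN, ?_⟩, fun _ => ⟨1, hax.u0 N hN, ?_⟩⟩
      · rw [h1]; have := Real.exp_pos (-((N : ℝ) / j0)); linarith
      · rw [h1]; have := Real.exp_pos (-((N : ℝ) / j0)); linarith
    | succ j hj ih =>
      intro N hN
      obtain ⟨hf1, hf2⟩ := hfact j hj
      have hjr : (0 : ℝ) < (j : ℝ) := by nlinarith
      have hj1 : 1 ≤ j := by exact_mod_cast (by nlinarith : (1 : ℝ) ≤ j)
      have hjr1 : (0 : ℝ) < (j : ℝ) + 1 := by linarith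
      have hV : (0 : ℝ) < (j0 : ℝ) / j := by positivity
      have hcast : (((j + 1 : ℕ) : ℝ)) = (j : ℝ) + 1 := by push_cast; ring
      rw [hcast]
      have hNS : (N : ℝ) ≤ S * j0 := by exact_mod_cast hN
      have hNSj : (N : ℝ) / j ≤ S := by
        rw [div_le_iff₀ hjr]
        have : (S : ℝ) * j0 ≤ S * j := mul_le_mul_of_nonneg_left (by exact_mod_cast hj) hSr
        linarith
      have hs' : (N : ℝ) / ((j : ℝ) + 1) = (N : ℝ) / j - (N : ℝ) / j / ((j : ℝ) + 1) := by
        field_simp; ring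
      have hV' : (j0 : ℝ) / ((j : ℝ) + 1) = (j0 : ℝ) / j * ((j : ℝ) / ((j : ℝ) + 1)) := by
        field_simp
      have hg1 := gm_le_D1 j hj1
      have hg2 := gm_ge_D1 j hj1
      have hg0 : 0 ≤ gm j := le_trans (by positivity) hg2
      -- 8 exp(-S) / j ≥ (S + 1) / j ^ 2
      have hES : ((S : ℝ) + 1) / (j : ℝ) ^ 2 ≤ 40 * (Real.exp (-(S : ℝ)) / (5 * j)) := by
        have h1 : Real.exp (-(S : ℝ)) = (Real.exp S)⁻¹ := Real.exp_neg _
        have h2 := Real.exp_pos (S : ℝ)
        have h3 : 40 * (Real.exp (-(S : ℝ)) / (5 * j)) = 8 / (Real.exp S * j) := by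
          rw [h1]; field_simp; ring
        rw [h3, div_le_div_iff₀ (by positivity) (by positivity)]
        have h4 : ((S : ℝ) + 1) * Real.exp S * j ≤ j * j := mul_le_mul_of_nonneg_right hf2 hjr.le
        nlinarith
      have hone : 1 / (j : ℝ) - 1 / ((j : ℝ) + 1) ≤ 1 / (j : ℝ) ^ 2 := by
        rw [div_sub_div _ _ hjr.ne' hjr1.ne', div_le_div_iff₀ (by positivity) (by positivity)]
        nlinarith
      refine ⟨fun h4 => ?_, fun h3 => ?_⟩
      · -- lower bound
        obtain ⟨μ₁, hL1, hμ₁⟩ := (ih N hN).1 (by omega)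
        obtain ⟨μ₂, hU2, hμ₂⟩ := (ih (N - (j + 1)) (by omega)).2 (by omega)
        refine ⟨μ₁ - gm j * μ₂, hax.ls N j μ₁ μ₂ hj (by omega) hN hL1 hU2, ?_⟩
        have hc : (((N - (j + 1) : ℕ) : ℝ)) / j = (N : ℝ) / j - 1 - 1 / j := by
          rw [Nat.cast_sub (by omega)]; push_cast; field_simp; ring
        rw [hc] at hμ₂
        have hs4 : 4 ≤ (N : ℝ) / j := by
          rw [le_div_iff₀ hjr]
          have : ((4 * (j + 1) : ℕ) : ℝ) ≤ N := by exact_mod_cast h4
          push_cast at this; linarith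
        have hq := q_D1 S ((N : ℝ) / j) j hSr hf1 hs4 hNSj
        rw [hs', hV']
        set s := (N : ℝ) / j with hsdef
        have hE1 := Real.exp_pos (-s)
        have hE2 := Real.exp_pos (-(s - 1 - 1 / (j : ℝ)))
        have hE3 := Real.exp_pos (-(s - s / ((j : ℝ) + 1)))
        -- γ μ₂ ≤ V (1/j)(1 + A e)
        have h5 : gm j * μ₂ ≤ (1 / (j : ℝ)) * ((j0 : ℝ) / j * (1 + 40 * Real.exp (-(s - 1 - 1 / (j : ℝ))))) := by
          calc gm j * μ₂ ≤ gm j * ((j0 : ℝ) / j * (1 + 40 * Real.exp (-(s - 1 - 1 / (j : ℝ))))) :=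
                mul_le_mul_of_nonneg_left hμ₂ hg0
            _ ≤ _ := mul_le_mul_of_nonneg_right hg1 (by positivity)
        have h6 : (j0 : ℝ) / j * ((j : ℝ) / ((j : ℝ) + 1)) *
            (1 - 40 * Real.exp (-(s - s / ((j : ℝ) + 1)))) ≤
            (j0 : ℝ) / j * (1 - 40 * Real.exp (-s)) -
            (1 / (j : ℝ)) * ((j0 : ℝ) / j * (1 + 40 * Real.exp (-(s - 1 - 1 / (j : ℝ))))) := by
          have h7 : (j0 : ℝ) / j * (1 - 40 * Real.exp (-s)) -
              (1 / (j : ℝ)) * ((j0 : ℝ) / j * (1 + 40 * Real.exp (-(s - 1 - 1 / (j : ℝ))))) -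
              (j0 : ℝ) / j * ((j : ℝ) / ((j : ℝ) + 1)) *
              (1 - 40 * Real.exp (-(s - s / ((j : ℝ) + 1)))) =
              (j0 : ℝ) / j * ((1 - (j : ℝ) / ((j : ℝ) + 1) - 1 / j) +
                40 * ((j : ℝ) / ((j : ℝ) + 1) * Real.exp (-(s - s / ((j : ℝ) + 1))) - Real.exp (-s) -
                  (1 / j) * Real.exp (-(s - 1 - 1 / j)))) := by ring
          have h8 : 1 - (j : ℝ) / ((j : ℝ) + 1) = 1 / ((j : ℝ) + 1) := by field_simp; ring
          have h9 : 0 ≤ (1 - (j : ℝ) / ((j : ℝ) + 1) - 1 / j) +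
                40 * ((j : ℝ) / ((j : ℝ) + 1) * Real.exp (-(s - s / ((j : ℝ) + 1))) - Real.exp (-s) -
                  (1 / j) * Real.exp (-(s - 1 - 1 / j))) := by
            rw [h8]
            have h10 : 1 / (j : ℝ) ^ 2 ≤ ((S : ℝ) + 1) / (j : ℝ) ^ 2 := by
              apply div_le_div_of_nonneg_right _ (by positivity); linarith
            linarith
          have h11 := mul_nonneg hV.le h9
          linarith
        linarith
      · by_cases h5 : 5 * (j + 1) ≤ N
        · -- upper bound, large s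
          obtain ⟨μ₁, hU1, hμ₁⟩ := (ih N hN).2 (by omega)
          obtain ⟨μ₂, hL2, hμ₂⟩ := (ih (N - (j + 1)) (by omega)).1 (by omega)
          refine ⟨μ₁ - gm j * μ₂ + gm j ^ 2 / 2, hax.us N j μ₁ μ₂ hj (by omega) hN hU1 hL2, ?_⟩
          have hc : (((N - (j + 1) : ℕ) : ℝ)) / j = (N : ℝ) / j - 1 - 1 / j := by
            rw [Nat.cast_sub (by omega)]; push_cast; field_simp; ring
          rw [hc] at hμ₂
          have hs4 : 4 ≤ (N : ℝ) / j := by
            rw [le_div_iff₀ hjr]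
            have : ((5 * (j + 1) : ℕ) : ℝ) ≤ N := by exact_mod_cast h5
            push_cast at this; linarith
          have hq := q_D1 S ((N : ℝ) / j) j hSr hf1 hs4 hNSj
          -- 1 / V ≤ S
          have hVS : 1 ≤ (S : ℝ) * ((j0 : ℝ) / j) := by
            have h6 : (j : ℝ) ≤ S * j0 := by
              have : j ≤ S * j0 := by omega
              exact_mod_cast this
            rw [← mul_div_assoc, le_div_iff₀ hjr]; linarith
          rw [hs', hV']
          set s := (N : ℝ) / j with hsdef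
          have hE1 := Real.exp_pos (-s)
          have hE2 := Real.exp_pos (-(s - 1 - 1 / (j : ℝ)))
          have hE3 := Real.exp_pos (-(s - s / ((j : ℝ) + 1)))
          have h6 : (j0 : ℝ) / j * (gm j - gm j * (40 * Real.exp (-(s - 1 - 1 / (j : ℝ))))) ≤ gm j * μ₂ := by
            have := mul_le_mul_of_nonneg_left hμ₂ hg0
            nlinarith
          have h7 : (j0 : ℝ) / j * (1 / ((j : ℝ) + 1) - (1 / (j : ℝ)) * (40 * Real.exp (-(s - 1 - 1 / (j : ℝ))))) ≤
              (j0 : ℝ) / j * (gm j - gm j * (40 * Real.exp (-(s - 1 - 1 / (j : ℝ))))) := by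
            apply mul_le_mul_of_nonneg_left _ hV.le
            have : gm j * (40 * Real.exp (-(s - 1 - 1 / (j : ℝ)))) ≤
              (1 / (j : ℝ)) * (40 * Real.exp (-(s - 1 - 1 / (j : ℝ)))) :=
              mul_le_mul_of_nonneg_right hg1 (by positivity)
            linarith
          have h8 : gm j ^ 2 / 2 ≤ (j0 : ℝ) / j * (((S : ℝ) + 1) / (j : ℝ) ^ 2) := by
            have h9 : gm j ^ 2 ≤ (1 / (j : ℝ)) ^ 2 := pow_le_pow_left₀ hg0 hg1 2
            have h10 : (1 / (j : ℝ)) ^ 2 = 1 / (j : ℝ) ^ 2 := by field_simp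
            have h11 : 1 / (j : ℝ) ^ 2 ≤ (S : ℝ) * ((j0 : ℝ) / j) * (1 / (j : ℝ) ^ 2) := by
              have := mul_le_mul_of_nonneg_right hVS (by positivity : 0 ≤ 1 / (j : ℝ) ^ 2)
              linarith
            have h12 : (j0 : ℝ) / j * (((S : ℝ) + 1) / (j : ℝ) ^ 2) =
              (S : ℝ) * ((j0 : ℝ) / j) * (1 / (j : ℝ) ^ 2) + (j0 : ℝ) / j * (1 / (j : ℝ) ^ 2) := by ring
            have h13 : 0 ≤ (j0 : ℝ) / j * (1 / (j : ℝ) ^ 2) := by positivity
            have h14 : 0 ≤ 1 / (j : ℝ) ^ 2 := by positivity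
            rw [h12]
            rw [h10] at h9
            linarith
          have h9 : 0 ≤ (j0 : ℝ) / j * (40 * ((j : ℝ) / ((j : ℝ) + 1) * Real.exp (-(s - s / ((j : ℝ) + 1))) -
              Real.exp (-s) - (1 / j) * Real.exp (-(s - 1 - 1 / j))) - ((S : ℝ) + 1) / (j : ℝ) ^ 2) := by
            apply mul_nonneg hV.le
            linarith
          have h10 : (j0 : ℝ) / j * ((j : ℝ) / ((j : ℝ) + 1)) * (1 + 40 * Real.exp (-(s - s / ((j : ℝ) + 1)))) =
              (j0 : ℝ) / j * (1 + 40 * Real.exp (-s)) -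
              (j0 : ℝ) / j * (1 / ((j : ℝ) + 1) - (1 / (j : ℝ)) * (40 * Real.exp (-(s - 1 - 1 / (j : ℝ))))) +
              (j0 : ℝ) / j * (40 * ((j : ℝ) / ((j : ℝ) + 1) * Real.exp (-(s - s / ((j : ℝ) + 1))) -
              Real.exp (-s) - (1 / j) * Real.exp (-(s - 1 - 1 / j)))) := by
            have h11 : (j : ℝ) / ((j : ℝ) + 1) = 1 - 1 / ((j : ℝ) + 1) := by field_simp; ring
            rw [h11]; ring
          rw [h10]
          rw [mul_sub] at h9
          linarith
        · -- upper bound, small s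
          obtain ⟨μ₁, hU1, hμ₁⟩ := (ih N hN).2 (by omega)
          refine ⟨μ₁, hax.uk N j μ₁ hj hN hU1, ?_⟩
          have hs3 : 3 ≤ (N : ℝ) / ((j : ℝ) + 1) := by
            rw [le_div_iff₀ hjr1]
            have : ((3 * (j + 1) : ℕ) : ℝ) ≤ N := by exact_mod_cast h3
            push_cast at this; linarith
          have hs5 : (N : ℝ) / ((j : ℝ) + 1) ≤ 5 := by
            rw [div_le_iff₀ hjr1]
            have : N ≤ 5 * (j + 1) := by omega
            have : (N : ℝ) ≤ ((5 * (j + 1) : ℕ) : ℝ) := by exact_mod_cast this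
            push_cast at this; linarith
          rw [hs'] at hs3 hs5
          rw [hs', hV', mul_assoc]
          have h200 : (200 : ℝ) ≤ j := by nlinarith
          have hsm := small_D1 ((N : ℝ) / j) j h200 hs3 hs5
          exact le_trans hμ₁ (mul_le_mul_of_nonneg_left hsm hV.le)
  intro j N hj hN
  exact main j hj N hN

end Pool.Agent.Helper9.TW
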