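import Pool.Agent.Helper9.TW.St

set_option autoImplicit false

namespace Pool.Agent.Helper9.TW

open Finset

theorem hPT : StPT := by
  intro u a b hu ha hb hz hsq hsum
  have hk0 : a * b + 1 ≠ 0 := by omega
  have hur : (0 : ℝ) < (u : ℝ) := by exact_mod_cast hu
  have har : (2 : ℝ) ≤ (a : ℝ) := by exact_mod_cast ha
  have ha0 : (0 : ℝ) < (a : ℝ) := by linarith
  have hla : 0 < Real.log a := Real.log_pos (by linarith)
  have hsf : Squarefree (a * b + 1) := by
    rw [Nat.squarefree_iff_prime_squarefree]
    intro p hp h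
    apply hsq p hp
    rw [sq]; exact h
  have hcard : ArithmeticFunction.cardFactors (a * b + 1) = (a * b + 1).primeFactors.card := by
    rw [← (ArithmeticFunction.cardDistinctFactors_eq_cardFactors_iff_squarefree hk0).mpr hsf]
    rfl
  by_contra hcon
  push Not at hcon
  rw [hcard] at hcon
  have hc3 : (3 : ℝ) ≤ ((a * b + 1).primeFactors.card : ℝ) := by exact_mod_cast hcon
  -- log k
  have hkle : a * b + 1 ≤ a ^ 2 := by
    unfold Bb at hb
    rw [mem_Ioc] at hb
    have h1 : 2 * b ≤ a := by omega
    nlinarith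
  have hlogk : ∑ p ∈ (a * b + 1).primeFactors, Real.log p ≤ 2 * Real.log a := by
    have h1 : ∑ p ∈ (a * b + 1).primeFactors, Real.log p =
        Real.log (((a * b + 1 : ℕ)) : ℝ) := by
      rw [← Real.log_prod]
      · congr 1
        have := Nat.prod_primeFactors_of_squarefree hsf
        rw [← Nat.cast_prod, this]
      · intro p hp
        have := (Nat.prime_of_mem_primeFactors hp).pos
        positivity
    rw [h1]
    have h2 : Real.log (((a * b + 1 : ℕ)) : ℝ) ≤ Real.log ((a : ℝ) ^ 2) := by
      apply Real.log_le_log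
      · positivity
      · exact_mod_cast hkle
    rw [Real.log_pow] at h2
    push_cast at h2 ⊢
    linarith
  -- swap
  set om : ℝ := 1 / (4000 * u) with hom
  have hom0 : 0 < om := by rw [hom]; positivity
  have hej : ∀ j : ℕ, (ej a om j (a * b + 1) : ℝ) =
      ∑ p ∈ (a * b + 1).primeFactors, if p ∈ bx a om j then (1 : ℝ) else 0 := by
    intro j
    rw [Finset.sum_ite_mem, Finset.sum_const, nsmul_eq_mul, mul_one]
    congr 1
    unfold ej
    congr 1
    ext p
    simp only [mem_filter, mem_inter, Nat.mem_primeFactors]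
    constructor
    · rintro ⟨h1, h2⟩
      have : p.Prime := by
        unfold bx at h1
        simp only [mem_filter] at h1
        exact h1.2.1
      exact ⟨⟨this, h2, hk0⟩, h1⟩
    · rintro ⟨⟨_, h2, _⟩, h1⟩
      exact ⟨h1, h2⟩
  have hpt : ∀ p ∈ (a * b + 1).primeFactors, 1 - Real.log p / (999 / 1000 * Real.log a) ≤
      ∑ j ∈ Ico (1123 * u) (3996 * u), (1 - (j : ℝ) / (3996 * u)) *
        (if p ∈ bx a om j then (1 : ℝ) else 0) := by
    intro p hp
    have hpp := Nat.prime_of_mem_primeFactors hp
    have hpd := Nat.dvd_of_mem_primeFactors hp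
    have hp0 : (0 : ℝ) < p := by exact_mod_cast hpp.pos
    have hnn : ∀ j ∈ Ico (1123 * u) (3996 * u), 0 ≤ (1 - (j : ℝ) / (3996 * u)) *
        (if p ∈ bx a om j then (1 : ℝ) else 0) := by
      intro j hj
      rw [mem_Ico] at hj
      apply mul_nonneg
      · rw [sub_nonneg, div_le_one (by positivity)]
        have : (j : ℝ) ≤ ((3996 * u : ℕ) : ℝ) := by exact_mod_cast hj.2.le
        push_cast at this; exact this
      · split_ifs <;> norm_num
    by_cases hbig : 999 / 1000 * Real.log a ≤ Real.log p
    · have h1 : 1 ≤ Real.log p / (999 / 1000 * Real.log a) := by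
        rw [le_div_iff₀ (by positivity)]; linarith
      have h2 := Finset.sum_nonneg hnn
      linarith
    · push Not at hbig
      set t : ℝ := Real.log p / (om * Real.log a) with ht
      have hlp : 0 ≤ Real.log p := Real.log_nonneg (by exact_mod_cast hpp.one_lt.le)
      have ht0 : 0 ≤ t := by positivity
      set j := ⌊t⌋₊ with hj
      have hj1 : (j : ℝ) ≤ t := Nat.floor_le ht0
      have hj2 : t < (j : ℝ) + 1 := Nat.lt_floor_add_one t
      have htl : t * (om * Real.log a) = Real.log p := by
        rw [ht]; field_simp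
      have homl : 0 < om * Real.log a := by positivity
      have hlow : (a : ℝ) ^ ((j : ℝ) * om) ≤ (p : ℝ) := by
        rw [← Real.log_le_log_iff (by positivity) hp0, Real.log_rpow ha0, ← htl]
        have := mul_le_mul_of_nonneg_right hj1 homl.le
        linarith
      have hupp : (p : ℝ) < (a : ℝ) ^ (((j : ℝ) + 1) * om) := by
        rw [← Real.log_lt_log_iff hp0 (by positivity), Real.log_rpow ha0, ← htl]
        have := mul_lt_mul_of_pos_right hj2 homl
        linarith
      have hna : ¬ p ∣ a := by
        intro h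
        have h1 : p ∣ 1 := (Nat.dvd_add_right (Dvd.dvd.mul_right h b)).mp hpd
        exact hpp.one_lt.ne' (Nat.dvd_one.mp h1)
      have hmem : p ∈ bx a om j := by
        unfold bx
        simp only [mem_filter, mem_range]
        exact ⟨Nat.lt_ceil.mpr hupp, hpp, hlow, hna⟩
      have hjl : 1123 * u ≤ j := by
        apply Nat.le_floor
        have h1 := hz p hpp hpd
        rw [← Real.log_le_log_iff (by positivity) hp0, Real.log_rpow ha0, ← htl] at h1
        have h2 : (((1123 * u : ℕ)) : ℝ) * (om * Real.log a) ≤ t * (om * Real.log a) := by linarith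
        exact le_of_mul_le_mul_right h2 homl
      have hjr : j < 3996 * u := by
        rw [hj, Nat.floor_lt ht0]
        rw [ht, div_lt_iff₀ homl]
        have : (((3996 * u : ℕ)) : ℝ) * (om * Real.log a) = 999 / 1000 * Real.log a := by
          rw [hom]; push_cast; field_simp; norm_num
        rw [this]; exact hbig
      have h1 := Finset.single_le_sum hnn (mem_Ico.mpr ⟨hjl, hjr⟩)
      refine le_trans ?_ h1
      rw [if_pos hmem, mul_one]
      have h2 : (j : ℝ) / (3996 * u) ≤ Real.log p / (999 / 1000 * Real.log a) := by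
        have h3 : Real.log p / (999 / 1000 * Real.log a) = t / (3996 * u) := by
          rw [ht, hom]; field_simp; ring
        rw [h3]
        exact div_le_div_of_nonneg_right hj1 (by positivity)
      linarith
  have hfin := Finset.sum_le_sum hpt
  rw [Finset.sum_sub_distrib, Finset.sum_const, nsmul_eq_mul, mul_one, ← Finset.sum_div,
    Finset.sum_comm] at hfin
  have hrew : ∑ j ∈ Ico (1123 * u) (3996 * u), (1 - (j : ℝ) / (3996 * u)) *
      (ej a om j (a * b + 1) : ℝ) = ∑ j ∈ Ico (1123 * u) (3996 * u),
        ∑ p ∈ (a * b + 1).primeFactors, (1 - (j : ℝ) / (3996 * u)) *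
        (if p ∈ bx a om j then (1 : ℝ) else 0) := by
    refine Finset.sum_congr rfl fun j _ => ?_
    rw [hej j, Finset.mul_sum]
  rw [hrew] at hsum
  have h5 : (∑ p ∈ (a * b + 1).primeFactors, Real.log p) / (999 / 1000 * Real.log a) ≤ 2000 / 999 := by
    rw [div_le_iff₀ (by positivity)]
    have : 2000 / 999 * (999 / 1000 * Real.log a) = 2 * Real.log a := by ring
    linarith
  have h6 : (3 : ℝ) - 2000 / 999 ≤ ∑ j ∈ Ico (1123 * u) (3996 * u),
        ∑ p ∈ (a * b + 1).primeFactors, (1 - (j : ℝ) / (3996 * u)) *
        (if p ∈ bx a om j then (1 : ℝ) else 0) := by linarith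
  have h7 : (1 : ℝ) ≤ 10021 / 10000 * (3 - 2000 / 999) := by norm_num
  linarith

end Pool.Agent.Helper9.TW
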