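import Pool.Agent.Helper60.GP.All
import Pool.Agent.Helper18.TR.Final
import Pool.Agent.Helper15.AB.M_MT
import Pool.Agent.Helper15.AB.M_KB
import Pool.Agent.Helper15.AB.M_DB
import Pool.Agent.Helper30.TW.M_INC
import Pool.Agent.Helper30.TW.M_QD
import Pool.Agent.Helper30.TW.M_FOU
import Pool.Agent.Helper30.TW.M_EDG
import Pool.Agent.Helper30.TW.M_SQ
import Pool.Agent.Helper15.TW.M_BIL
import Pool.Agent.Helper15.TW.M_BOX
import Pool.Agent.Helper61.TW.M_BL
import Pool.Agent.Helper8.TW.M_WFS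
import Pool.Agent.Helper8.TW.M_WFX
import Pool.Agent.Helper8.TW.M_WFB
import Pool.Agent.Helper8.TW.M_WFJ
import Pool.Agent.Helper8.TW.M_WFP
import Pool.Agent.Helper42.TW.M_MER
import Pool.Agent.Helper42.TW.M_PAR
import Pool.Agent.Helper42.TW.M_C2
import Pool.Agent.Helper49.TW.M_US
import Pool.Agent.Helper49.TW.M_LS
import Pool.Agent.Helper49.TW.M_TRV
import Pool.Agent.Helper49.TW.M_MSB
import Pool.Agent.Helper49.TW.M_INQ
import Pool.Agent.Helper49.TW.M_FS
import Pool.Agent.Helper49.TW.M_FIN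
import Pool.Agent.Helper84.TW.M_POS
import Pool.Agent.Helper6.TW.M_D2
import Pool.Agent.Helper6.TW.M_D3
import Pool.Agent.Helper74.TW.M_D4
import Pool.Agent.Helper74.TW.M_D5
import Pool.Agent.Helper74.TW.M_C6
import Pool.Agent.Helper74.TW.M_C10
import Pool.Agent.Helper54.TW.M_C4
import Pool.Agent.Helper54.TW.M_C7
import Pool.Agent.Helper54.TW.M_CA
import Pool.Agent.Helper82.TW.M_C5
import Pool.Agent.Helper82.TW.M_VL
import Pool.Agent.Helper41.TW.M_C8
import Pool.Agent.Helper9.TW.M_AX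
import Pool.Agent.Helper9.TW.M_C1
import Pool.Agent.Helper9.TW.M_C3
import Pool.Agent.Helper9.TW.M_C9
import Pool.Agent.Helper9.TW.M_D1
import Pool.Agent.Helper9.TW.M_D6
import Pool.Agent.Helper9.TW.M_PT

/-!
# Project TW: assembly
-/

namespace Pool.Agent.Helper9.TW

open Pool.Agent

theorem pINC : StINC := Helper30.TW.hINC Helper15.AB.hKB Helper15.AB.hDB

theorem pBIL : StBIL := Helper15.TW.hBIL pINC Helper30.TW.hQD Helper15.AB.hDB

theorem pBL : StBL := Helper61.TW.hBL (Helper15.TW.hBOX pBIL Helper30.TW.hFOU) Helper30.TW.hEDG Helper15.AB.hDB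

theorem pMER : StMER := Helper42.TW.hMER Helper60.GP.pM2

theorem pMSB : StMSB := Helper49.TW.hMSB Helper8.TW.hWFX

theorem pINQ : StINQ := Helper49.TW.hINQ Helper8.TW.hWFX

theorem pUS : StUS := Helper49.TW.hUS Helper8.TW.hWFS Helper8.TW.hWFB Helper8.TW.hWFP pMSB
  (Helper42.TW.hPAR pMER) pMER pINQ

theorem pLS : StLS := Helper49.TW.hLS Helper8.TW.hWFS Helper8.TW.hWFB pMSB pMER pINQ

theorem pAX : StAX := hAX pUS pLS (Helper49.TW.hTRV Helper8.TW.hWFS)

theorem pD5 : StD5 := Helper74.TW.hD5 hD1 Helper6.TW.hD2 Helper6.TW.hD3 Helper74.TW.hD4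

theorem pFS : StFS := Helper49.TW.hFS pAX Helper74.TW.hD4 pD5 hD6

theorem pC4 : StC4 := hC4 (hC3 pBL Helper42.TW.hC2) Helper18.TR.pf_Level

theorem pC7 : StC7 := hC7 pC4 Helper82.TW.hC5 Helper74.TW.hC6
  (Helper30.TW.hSQ Helper15.AB.hDB) Helper15.AB.hDB hC1 Helper15.AB.hMT

theorem pCA : StCA := hCA pC7 Helper8.TW.hWFJ pMSB pINQ

theorem pC8 : StC8 := Helper41.TW.hC8 Helper18.TR.bonf Helper18.TR.flMain hC1

theorem pC10 : StC10 := Helper74.TW.hC10 pFS pCA (Helper82.TW.hVL Helper15.AB.hMT hC1) pC8 hC9 pMER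
  (Helper84.TW.hPOS Helper8.TW.hWFX)

theorem pFIN : StFIN := Helper49.TW.hFIN pC10 hC1 hPT

end Pool.Agent.Helper9.TW
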