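import Pool.Agent.Helper9.SU.Defs
import Pool.Agent.Helper15.AB.StKl
import Pool.Agent.Helper18.TR.St

/-!
# Project TW (MP_5e9b96_nt): `x + n y = P₂` and `x ^ 2 + n y ^ 2 = P_R` for every large `n`

Coordinates: `n = a + 1`, `y = b - 1`, `x = a + 2 - b`; then `x + n y = a b + 1` and `x ^ 2 + n y ^ 2 = QQ a b`.
-/

set_option autoImplicit false

noncomputable section

namespace Pool.Agent.Helper9.TW

open Finset Filter Topology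
open Pool.Agent.Helper15.AB (ee Kl)
open Pool.Agent.Helper9.SU (QQ)
open Pool.Agent.Helper18.TR (fam0 fam1)

/-! ### the bilinear form -/

/-- inverse of `m` modulo `r` -/
def iv (r m : ℕ) : ℕ := ((m : ZMod r)⁻¹).val

/-- the range of `b` -/
def Bb (a : ℕ) : Finset ℕ := Ioc (a / 4) (a / 2)

/-- number of `b` in a class with `q ∣ a b + 1` -/
def cb (a d β q : ℕ) : ℕ := ((Bb a).filter (fun b => b % d = β ∧ q ∣ a * b + 1)).card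

/-! ### weights -/

/-- the primes of box `i` that do not divide `a` -/
def bx (a : ℕ) (ω : ℝ) (i : ℕ) : Finset ℕ :=
  (range ⌈(a : ℝ) ^ (((i : ℝ) + 1) * ω)⌉₊).filter
    (fun p => p.Prime ∧ (a : ℝ) ^ ((i : ℝ) * ω) ≤ (p : ℝ) ∧ ¬ p ∣ a)

/-- the primes of the boxes `j0 ≤ i < j` -/
def Pr (a : ℕ) (ω : ℝ) (j0 j : ℕ) : Finset ℕ := (Ico j0 j).biUnion (bx a ω)

/-- squarefree products of these primes -/
def Sp (a : ℕ) (ω : ℝ) (j0 j m : ℕ) : Prop :=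
  Squarefree m ∧ ∀ p : ℕ, p.Prime → p ∣ m → p ∈ Pr a ω j0 j

/-- squarefree numbers prime to `a` without prime factors below `z` -/
def Rg (a : ℕ) (z : ℝ) (m : ℕ) : Prop :=
  Squarefree m ∧ ∀ p : ℕ, p.Prime → p ∣ m → z ≤ (p : ℝ) ∧ ¬ p ∣ a

/-- coprime convolution -/
def cc (f g : ℕ → ℝ) (q : ℕ) : ℝ :=
  ∑ x ∈ q.divisorsAntidiagonal.filter (fun x => Nat.Coprime x.1 x.2), f x.1 * g x.2

/-- `lam` is a sum of `T` coprime convolutions of functions bounded by `B`, supported on the sets `P`,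
up to `M` and up to `N` -/
def Dec (P : ℕ → Prop) (M N : ℝ) (T : ℕ) (B : ℝ) (lam : ℕ → ℝ) : Prop :=
  ∃ al be : ℕ → ℕ → ℝ, (∀ t m, |al t m| ≤ B ∧ |be t m| ≤ B) ∧
    (∀ t m, al t m ≠ 0 → P m ∧ (m : ℝ) ≤ M) ∧ (∀ t m, be t m ≠ 0 → P m ∧ (m : ℝ) ≤ N) ∧
    ∀ q, lam q = ∑ t ∈ range T, cc (al t) (be t) q

/-- well factorable of level `a ^ x`, with the primes of the boxes `j0 ≤ i < j` -/
def WF (a : ℕ) (ω : ℝ) (j0 j : ℕ) (x : ℝ) (T : ℕ) (B : ℝ) (lam : ℕ → ℝ) : Prop :=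
  ∀ M N : ℝ, 1 ≤ M → 1 ≤ N → M * N = (a : ℝ) ^ x → Dec (Sp a ω j0 j) M N T B lam

/-- `lam` multiplied by the primes of box `j` -/
def bm (a : ℕ) (ω : ℝ) (j : ℕ) (lam : ℕ → ℝ) (q : ℕ) : ℝ :=
  ∑ p ∈ (bx a ω j).filter (fun p => p ∣ q), lam (q / p)

open Classical in
/-- products of two different primes of box `j` -/
def pr2 (a : ℕ) (ω : ℝ) (j q : ℕ) : ℝ :=
  if ∃ p ∈ bx a ω j, ∃ p' ∈ bx a ω j, p < p' ∧ q = p * p' then 1 else 0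

/-- the main term -/
def ms (a : ℕ) (lam : ℕ → ℝ) : ℝ := ∑ q ∈ range (a ^ 2 + 1), lam q / q

open Classical in
/-- indicator function of the integers without prime factors in `Pr` -/
def ind (a : ℕ) (ω : ℝ) (j0 j n : ℕ) : ℝ := if ∃ p ∈ Pr a ω j0 j, p ∣ n then 0 else 1

/-- there is a family of upper bound sieve weights with main term `μ` -/
def UpP (ω : ℝ) (j0 N j : ℕ) (μ : ℝ) : Prop :=
  ∃ (T : ℕ) (B : ℝ) (Lam : ℕ → ℕ → ℝ),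
    (∀ᶠ a : ℕ in atTop, WF a ω j0 j ((N : ℝ) * ω) T B (Lam a)) ∧
    (∀ᶠ a : ℕ in atTop, ∀ n : ℕ, 1 ≤ n → ind a ω j0 j n ≤ ∑ q ∈ n.divisors, Lam a q) ∧
    Tendsto (fun a : ℕ => ms a (Lam a)) atTop (𝓝 μ)

/-- there is a family of lower bound sieve weights with main term `μ` -/
def LoP (ω : ℝ) (j0 N j : ℕ) (μ : ℝ) : Prop :=
  ∃ (T : ℕ) (B : ℝ) (Lam : ℕ → ℕ → ℝ),
    (∀ᶠ a : ℕ in atTop, WF a ω j0 j ((N : ℝ) * ω) T B (Lam a)) ∧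
    (∀ᶠ a : ℕ in atTop, ∀ n : ℕ, 1 ≤ n → ∑ q ∈ n.divisors, Lam a q ≤ ind a ω j0 j n) ∧
    Tendsto (fun a : ℕ => ms a (Lam a)) atTop (𝓝 μ)

/-! ### the deterministic recursion -/

/-- limit of the sum of `1 / p` over box `i` -/
def gm (i : ℕ) : ℝ := Real.log (((i : ℝ) + 1) / i)

/-- the rules of the recursion: `U N j μ` is `there are upper bound weights of level N for the boxes
below j with main term μ`, `L` the same for lower bounds -/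
structure Ax (j0 Nm : ℕ) (U L : ℕ → ℕ → ℝ → Prop) : Prop where
  u0 : ∀ N, N ≤ Nm → U N j0 1
  l0 : ∀ N, N ≤ Nm → L N j0 1
  us : ∀ N j μ μ', j0 ≤ j → 3 * (j + 1) ≤ N → N ≤ Nm → U N j μ → L (N - (j + 1)) j μ' →
    U N (j + 1) (μ - gm j * μ' + gm j ^ 2 / 2)
  uk : ∀ N j μ, j0 ≤ j → N ≤ Nm → U N j μ → U N (j + 1) μ
  ls : ∀ N j μ μ', j0 ≤ j → 2 * (j + 1) ≤ N → N ≤ Nm → L N j μ → U (N - (j + 1)) j μ' →
    L N (j + 1) (μ - gm j * μ')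
  lz : ∀ N j, j0 ≤ j → N ≤ Nm → L N j 0

/-- upper bound sieve with constant `c` for `s ≤ log D / log z` -/
def GUp (S : ℕ) (s c : ℝ) : Prop := ∀ η : ℝ, 0 < η → ∃ js : ℕ, ∀ j0 : ℕ, js ≤ j0 →
  ∀ U L : ℕ → ℕ → ℝ → Prop, Ax j0 (S * j0) U L → ∀ j N : ℕ, j0 ≤ j → N ≤ S * j0 →
    s * j ≤ (N : ℝ) → ∃ μ : ℝ, U N j μ ∧ μ ≤ (j0 : ℝ) / j * (c + η)

/-- lower bound sieve with constant `c` for `s ≤ log D / log z` -/
def GLo (S : ℕ) (s c : ℝ) : Prop := ∀ η : ℝ, 0 < η → ∃ js : ℕ, ∀ j0 : ℕ, js ≤ j0 →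
  ∀ U L : ℕ → ℕ → ℝ → Prop, Ax j0 (S * j0) U L → ∀ j N : ℕ, j0 ≤ j → N ≤ S * j0 →
    s * j ≤ (N : ℝ) → ∃ μ : ℝ, L N j μ ∧ (j0 : ℝ) / j * (c - η) ≤ μ

/-! ### the polynomial values -/

/-- the product of the two numbers -/
def Fb (a b : ℕ) : ℤ := ((a : ℤ) * b + 1) * QQ a b

/-- number of roots of `Fb a` modulo `p` -/
def rt (a p : ℕ) : ℕ := ((range p).filter (fun r : ℕ => (p : ℤ) ∣ Fb a r)).card

/-- the density -/
def ga (a p : ℕ) : ℝ := (rt a p : ℝ) / p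

/-- the primes `7 ≤ p < a ^ θ` -/
def Qs (a : ℕ) (θ : ℝ) : Finset ℕ :=
  (Icc 7 ⌊(a : ℝ) ^ θ⌋₊).filter (fun p => p.Prime ∧ (p : ℝ) < (a : ℝ) ^ θ)

/-- the index sets of the fundamental lemma: `i = 0` upper bound, otherwise lower bound -/
def fm (i a : ℕ) (θ : ℝ) (u : ℕ) : Finset (Finset ℕ) :=
  if i = 0 then fam0 ⌊(a : ℝ) ^ θ⌋₊ u (Qs a θ)
  else fam0 ⌊(a : ℝ) ^ θ⌋₊ u (Qs a θ) ∪ fam1 ⌊(a : ℝ) ^ θ⌋₊ u (Qs a θ)

open Classical in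
/-- the weights of the fundamental lemma at `b` -/
def th (i a : ℕ) (θ : ℝ) (u b : ℕ) : ℝ :=
  ∑ T ∈ fm i a θ u, (-1 : ℝ) ^ T.card * ∏ p ∈ T, (if (p : ℤ) ∣ Fb a b then (1 : ℝ) else 0)

/-- their mean value -/
def TH (i a : ℕ) (θ : ℝ) (u : ℕ) : ℝ := ∑ T ∈ fm i a θ u, (-1 : ℝ) ^ T.card * ∏ p ∈ T, ga a p

open Classical in
/-- the indicator function of: no prime of `Qs` divides `Fb a b` -/
def q0 (a : ℕ) (θ : ℝ) (b : ℕ) : ℝ := if ∀ p ∈ Qs a θ, ¬ (p : ℤ) ∣ Fb a b then 1 else 0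

open Classical in
/-- `b` such that no `p ^ 2`, `a ^ θ ≤ p`, divides `a b + 1` -/
def B1 (a : ℕ) (θ : ℝ) : Finset ℕ :=
  (Bb a).filter (fun b => ∀ p : ℕ, p.Prime → (a : ℝ) ^ θ ≤ (p : ℝ) → ¬ p ^ 2 ∣ a * b + 1)

/-- number of prime factors in box `j` -/
def ej (a : ℕ) (ω : ℝ) (j n : ℕ) : ℕ := ((bx a ω j).filter (fun p => p ∣ n)).card

/-- the integers `y`, `0 < y < n`, with `x + n y` a product of at most two primes and at most `R` prime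
factors of `x ^ 2 + n y ^ 2`, `x = n - y` -/
def ys (R n : ℕ) : Finset ℕ :=
  (Ioo 0 n).filter (fun y => ArithmeticFunction.cardFactors ((n - y) + n * y) ≤ 2 ∧
    ArithmeticFunction.cardFactors ((n - y) ^ 2 + n * y ^ 2) ≤ R)

end Pool.Agent.Helper9.TW
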