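import Pool.Agent.Helper9.TW.St

set_option autoImplicit false

namespace Pool.Agent.Helper9.TW

open Finset

theorem hAX (hU : StUS) (hL : StLS) (hT : StTRV) : StAX := by
  intro ω j0 Nm hω hj0 hNm
  have hle : ∀ N : ℕ, N ≤ Nm → (N : ℝ) * ω ≤ 2 := fun N hN =>
    le_trans (mul_le_mul_of_nonneg_right (by exact_mod_cast hN) hω.le) hNm
  exact {
    u0 := fun N hN => (hT ω j0 N j0 0 hω le_rfl).1
    l0 := fun N hN => (hT ω j0 N j0 0 hω le_rfl).2.1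
    us := fun N j μ μ' h1 h2 h3 h4 h5 => hU ω j0 N j μ μ' hω hj0 h1 h2 (hle N h3) h4 h5
    uk := fun N j μ h1 h2 h3 => (hT ω j0 N j μ hω h1).2.2.1 h3
    ls := fun N j μ μ' h1 h2 h3 h4 h5 => hL ω j0 N j μ μ' hω hj0 h1 h2 (hle N h3) h4 h5
    lz := fun N j h1 h2 => (hT ω j0 N j 0 hω h1).2.2.2 }

end Pool.Agent.Helper9.TW
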