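import Pool.Agent.Helper9.TW.Defs
import Pool.Agent.Helper15.AB.StMid
import Pool.Agent.Helper60.GP.St

/-!
# Project TW (MP_5e9b96_nt): statements of the modules, with complete proofs

THEOREM. Every large `n` has at least `n / (log n) ^ 4` values `0 < y < n` such that, with `x = n - y`, the number
`x + n y` has at most two prime factors and `x ^ 2 + n y ^ 2` at most `R`.

Overview. With `a = n - 1`, `b = y + 1`: `x + n y = a b + 1`, `b ≍ a`. Part K: the bilinear form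
`∑ α(m) β(n) #{b : m n ∣ a b + 1}`, `m ≤ a ^ (1 - δ)`, `n ≤ a ^ (1 / 8 - δ)`, by Kloosterman's bound. Part W: well
factorable weights of the linear sieve, built recursively from boxes `a ^ (i ω) ≤ p < a ^ ((i + 1) ω)`. Part D: the
deterministic recursion for the main terms. Part C: combination with the fundamental lemma for the primes
`p < a ^ θ` and both polynomials, Richert's weights.

Proved facts that may be imported: `Pool.Agent.Helper15.AB.hKB : StKB`, `Pool.Agent.Helper15.AB.hDB : StDB`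
(divisor bound), `Pool.Agent.Helper15.AB.hMT : StMT` (Mertens), the lemmas of `Helper15/AB/M_PQ.lean` (`ee_add`,
`ee_int`, `ee_norm`, `ee_congr`, `le_tot_mul`, `Kl_bound`) and `Helper15/AB/M_FJ.lean` (`gg_bound`, `harm_le`, `orth`),
`Helper60/GP/M_M2.lean`, and `Helper18/TR` (`StBonf`, `StFLmain`, `StLevel` are proved there). A module may also take such a
fact as a hypothesis if its statement says so.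
-/

set_option autoImplicit false

noncomputable section

namespace Pool.Agent.Helper9.TW

open Finset Filter Topology
open Pool.Agent.Helper15.AB (ee Kl StKB StDB StMT)
open Pool.Agent.Helper9.SU (QQ)
open Pool.Agent.Helper18.TR (fam0 fam1 StBonf StFLmain StLevel)

/-! ## K. Kloosterman sums and the bilinear form -/

/-- (INC, assume `hKB : StKB`, `hDB : StDB`.) Incomplete Kloosterman sums. PROOF. As `M₂ - M₁ ≤ r`, for a unit `u` modulo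
`r` the number of `m ∈ (M₁, M₂]` with `m ≡ u` is `(1/r) ∑_{j < r} ∑_{m ∈ (M₁, M₂]} e(j (u - m) / r)` (`0` or `1`), so the sum
is `(1/r) ∑_{j < r} (∑_m e(- j m / r)) Kl(r; j, k)`. Here `|∑_m e(- j m / r)| ≤ r / (2 min(j, r - j))` for `0 < j < r` and `≤ r` for
`j = 0` (geometric sum; `M_FJ.gg_bound`, `harm_le`), so `(1/r) ∑_j |∑_m e(- j m / r)| ≤ 2 + log r`. Kloosterman's bound:
`|Kl(r; j, k)| ^ 4 φ(r) ≤ 2 gcd(j, k, r) r ^ 4 τ(r) ^ 2` and `r ≤ φ(r) τ(r)` (`le_tot_mul`), `gcd(j, k, r) ≤ gcd(k, r)`: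
`|Kl(r; j, k)| ≤ (2 gcd(k, r) r ^ 3 τ(r) ^ 3) ^ (1/4)`. Then `τ(r) ≤ C r ^ ε'`, `2 + log r ≤ C r ^ ε'`. -/
def StINC : Prop := ∀ ε : ℝ, 0 < ε → ∃ C : ℝ, 0 < C ∧ ∀ (r : ℕ) (k : ℤ) (M₁ M₂ : ℕ), 1 ≤ r →
  M₂ ≤ M₁ + r →
  ‖∑ m ∈ (Ioc M₁ M₂).filter (fun m => Nat.Coprime m r), ee (((k * (iv r m : ℤ) : ℤ) : ℝ) / r)‖ ≤
    C * (r : ℝ) ^ (3 / 4 + ε) * (Int.gcd k r : ℝ) ^ (1 / 4 : ℝ)

/-- (QD, no hypotheses.) PROOF. With `v = ((h₁, n₁), (h₂, n₂))` map `v` to `(x, y) = (h₁ n₂, h₂ n₁) ∈ [1, H N] ^ 2`. The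
fibre of `(x, y)` has at most `τ(x) τ(y) ≤ T ^ 2` elements (`h₁` is a divisor of `x` and determines `n₂`, the same for `y`). The
condition is `x ≡ y (mod g)`: for every `x` there are at most `H N / g + 1` such `y`. -/
def StQD : Prop := ∀ (H N g : ℕ) (T : ℝ), 1 ≤ g →
  (∀ j : ℕ, 1 ≤ j → j ≤ H * N → (j.divisors.card : ℝ) ≤ T) →
  ((((Icc 1 H ×ˢ Icc 1 N) ×ˢ (Icc 1 H ×ˢ Icc 1 N)).filter (fun v : (ℕ × ℕ) × (ℕ × ℕ) =>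
      (g : ℤ) ∣ (v.1.1 : ℤ) * v.2.2 - v.2.1 * v.1.2)).card : ℝ) ≤
    T ^ 2 * (H * N) * ((H : ℝ) * N / g + 1)

/-- (BIL, assume `hI : StINC`, `hQ : StQD`, `hDB : StDB`.) PROOF. `r = a d`, `M' = M₂ - M₁`. Cauchy-Schwarz over `m` (at most
`M'` values, `|al m| ≤ 1`): the square is at most `M' ∑_m |∑_{h, n} be h n e(κ h iv(m) iv(n) / r)| ^ 2`. Expand and sum over `m`
first: `M' ∑_{(h₁, n₁), (h₂, n₂)} |∑_m e(k iv(m) / r)|`, `k = κ (h₁ iv(n₁) - h₂ iv(n₂))` (`e` depends on the numerator modulo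
`r` only, `ee_congr`). Multiplying `k` by the units `n₁ n₂`: `gcd(k, r) = gcd(κ (h₁ n₂ - h₂ n₁), r) ≤ gcd(κ, r) gcd(Δ, r)`,
`Δ = h₁ n₂ - h₂ n₁`, and `gcd(κ, a d)` is prime to `a`, so it divides `d`. By INC the inner sum is at most
`min(M', C r ^ (3/4 + ε') (d g) ^ (1/4))`, `g = gcd(Δ, r)` (a divisor of `r`). For every `g ∣ r` there are by QD at most
`T ^ 2 H N (H N / g + 1)` quadruples with `g ∣ Δ`, `T = C r ^ ε'` (`H N ≤ r ^ 2`). In the product use the second bound of the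
minimum for the part `H N / g` (`g ^ (1/4) / g ≤ 1`) and the bound `M'` for the part `1`: total
`τ(r) T ^ 2 (C r ^ (3/4 + ε') d ^ (1/4) (H N) ^ 2 + M' H N)`. -/
def StBIL : Prop := ∀ ε : ℝ, 0 < ε → ∃ C : ℝ, 0 < C ∧ ∀ (a d : ℕ) (κ : ℤ) (M₁ M₂ H N : ℕ)
  (al : ℕ → ℂ) (be : ℕ → ℕ → ℂ), 1 ≤ a → 1 ≤ d → IsCoprime κ (a : ℤ) → M₁ ≤ M₂ →
  M₂ ≤ M₁ + a * d → H * N ≤ (a * d) ^ 2 → (∀ m, ‖al m‖ ≤ 1) → (∀ h n, ‖be h n‖ ≤ 1) →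
  ‖∑ m ∈ (Ioc M₁ M₂).filter (fun m => Nat.Coprime m (a * d)), ∑ h ∈ Icc 1 H,
      ∑ n ∈ (Icc 1 N).filter (fun n => Nat.Coprime n (a * d)), al m * be h n *
        ee (((κ * h * (iv (a * d) m : ℤ) * (iv (a * d) n : ℤ) : ℤ) : ℝ) / ((a * d : ℕ) : ℝ))‖ ^ 2 ≤
    C * ((a * d : ℕ) : ℝ) ^ ε * ((M₂ : ℝ) - M₁) *
      (((a * d : ℕ) : ℝ) ^ (3 / 4 : ℝ) * (d : ℝ) ^ (1 / 4 : ℝ) * ((H : ℝ) * N) ^ 2 +
        ((M₂ : ℝ) - M₁) * (H * N))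

/-- (FOU, no hypotheses.) Finite Fourier expansion. PROOF. `c h = (1/r) ∑_{e ∈ (E₁, E₂]} e(- h e / r)` (then the term is
`c h e(h v / r)`), `c' h` its conjugate, but `c' h = 0` if `2 h = r`. Orthogonality
(`(1/r) ∑_{h < r} e(h (v - e) / r)` is the indicator function of `r ∣ e - v`), the frequency `r - h` is the frequency `- h`. The
frequency `0` gives `(E₂ - E₁) / r`. Geometric sum: `|∑_e e(- h e / r)| ≤ 1 / sin(π h / r) ≤ r / (2 h)` for `1 ≤ h ≤ r / 2`. -/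
def StFOU : Prop := ∀ r E₁ E₂ : ℕ, 1 ≤ r → E₁ ≤ E₂ → ∃ c c' : ℕ → ℂ,
  (∀ h ∈ Icc 1 (r / 2), ‖c h‖ ≤ min (((E₂ : ℝ) - E₁) / r) (1 / (2 * h)) ∧
    ‖c' h‖ ≤ min (((E₂ : ℝ) - E₁) / r) (1 / (2 * h))) ∧
  ∀ v : ℤ, ((((Ioc E₁ E₂).filter (fun e : ℕ => (r : ℤ) ∣ (e : ℤ) - v)).card : ℕ) : ℂ) =
    ((((E₂ : ℝ) - E₁) / r : ℝ) : ℂ) + ∑ h ∈ Icc 1 (r / 2),
      (c h * ee (((h * v : ℤ) : ℝ) / r) + c' h * ee (((-(h * v) : ℤ) : ℝ) / r))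

/-- (BOX, assume `hB : StBIL`, `hF : StFOU`.) PROOF. `r = a d`. `r ∣ m n e - κ` iff `r ∣ e - κ iv(m) iv(n)` for `m`, `n` prime to
`r`. Insert FOU (`v = κ iv(m) iv(n)`); the zero frequency cancels. For `2 ^ i ≤ r / 2` let `X = min(E / r, 2 ^ (- i - 1))`,
`E = E₂ - E₁`; on `2 ^ i ≤ h < 2 ^ (i + 1)`, `h ≤ r / 2`, the coefficients are at most `X`. Apply BIL with `H = 2 ^ (i + 1)`
(`H N₂ ≤ r ^ 2`), `N = N₂`, `be' h n = c h be(n) / X` on this range of `h` and `0` otherwise (and with `- κ` for `c'`; if `X = 0`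
all is `0`), `al m` and `be n` as complex numbers. As `X 2 ^ (i + 1) ≤ 1` and `X ^ 2 2 ^ (i + 1) ≤ E / r`, the square of the
part is at most `C r ^ ε' M' (r ^ (3/4) d ^ (1/4) N₂ ^ 2 + M' N₂ E / r)`, and `√(u + v) ≤ √u + √v`. There are at most
`log₂ r + 1 ≤ C r ^ ε'` values of `i`. -/
def StBOX : Prop := ∀ ε : ℝ, 0 < ε → ∃ C : ℝ, 0 < C ∧ ∀ (a d : ℕ) (κ : ℤ) (M₁ M₂ N₂ E₁ E₂ : ℕ)
  (al be : ℕ → ℝ), 1 ≤ a → 1 ≤ d → IsCoprime κ (a : ℤ) → M₁ ≤ M₂ → M₂ ≤ M₁ + a * d →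
  N₂ ≤ a * d → E₁ ≤ E₂ → (∀ m, |al m| ≤ 1) → (∀ n, |be n| ≤ 1) →
  |∑ m ∈ (Ioc M₁ M₂).filter (fun m => Nat.Coprime m (a * d)),
    ∑ n ∈ (Icc 1 N₂).filter (fun n => Nat.Coprime n (a * d)), al m * be n *
      ((((Ioc E₁ E₂).filter (fun e : ℕ => ((a * d : ℕ) : ℤ) ∣ (m : ℤ) * n * e - κ)).card : ℝ) -
        ((E₂ : ℝ) - E₁) / ((a * d : ℕ) : ℝ))| ≤
    C * ((a * d : ℕ) : ℝ) ^ ε * (((M₂ : ℝ) - M₁) ^ (1 / 2 : ℝ) * ((a * d : ℕ) : ℝ) ^ (3 / 8 : ℝ) *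
      (d : ℝ) ^ (1 / 8 : ℝ) * N₂ +
      ((M₂ : ℝ) - M₁) * ((N₂ : ℝ) * ((E₂ : ℝ) - E₁) / ((a * d : ℕ) : ℝ)) ^ (1 / 2 : ℝ))

/-- (EDG, no hypotheses.) PROOF. `B₁ = a / 4`, `B₂ = a / 2` (integer division). For `q` prime to `a d` the map `b ↦ e = (a b + 1) / q` is a
bijection from the `b` counted by `cb a d β q` onto the `e` with `a B₁ + 1 < q e ≤ a B₂ + 1`, `a d ∣ q e - (1 + a β)`
(such an `e` has `q e ≡ 1 (mod a)`, `b = (q e - 1) / a`, `b ≡ β (mod d)`). Let `E₁ = ⌊(a B₁ + 1) / P⌋`,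
`E₂ = max(E₁, ⌊(a B₂ + 1) / ((1 + η) ^ 2 P)⌋)`. If `E₁ < E₂` then every `e ∈ (E₁, E₂]` satisfies
`a B₁ + 1 < q e ≤ a B₂ + 1` for `P < q ≤ (1 + η) ^ 2 P` (if `E₁ = E₂` the set is empty). The other `e` counted by `cb` have
`e ≤ E₁`, so `q e ≤ (1 + η) ^ 2 (a B₁ + 1)` and `b ≤ a / 4 + η a + 2`, or `e > E₂`, so `q e ≥ (a B₂ + 1) / (1 + η) ^ 2` and
`b ≥ a / 2 - η a - 2`. Second claim: `L = a |Bb a| / q = (a B₂ + 1) / q - (a B₁ + 1) / q`, `a B₂ + 1 ≤ 1.5 a ^ 2`, and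
`- 1 - 5.7 η a ^ 2 / q ≤ E₂ - E₁ - L ≤ 1` (if `E₂ = E₁` by the maximum then `L ≤ 5.7 η a ^ 2 / q + 2`); divide by `a d`. Third:
`a B₂ + 1 ≤ a ^ 2` for `a ≥ 2`; check `a = 1` directly. -/
def StEDG : Prop := ∀ (a d β : ℕ) (η P : ℝ), 1 ≤ a → 1 ≤ d → β < d → 0 < η → η ≤ 1 / 10 → 0 < P →
  ∃ E₁ E₂ : ℕ, E₁ ≤ E₂ ∧ (E₂ : ℝ) - E₁ ≤ (a : ℝ) ^ 2 / P ∧
  ∀ q : ℕ, P < (q : ℝ) → (q : ℝ) ≤ (1 + η) ^ 2 * P → Nat.Coprime q (a * d) →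
    |(cb a d β q : ℝ) -
      (((Ioc E₁ E₂).filter (fun e : ℕ => ((a * d : ℕ) : ℤ) ∣ (q : ℤ) * e - (1 + a * β))).card : ℝ)| ≤
      (((Bb a).filter (fun b : ℕ => ((b : ℝ) ≤ a / 4 + η * a + 2 ∨ (a : ℝ) / 2 - η * a - 2 ≤ b) ∧
        q ∣ a * b + 1)).card : ℝ) ∧
    |((E₂ : ℝ) - E₁) / ((a * d : ℕ) : ℝ) - ((Bb a).card : ℝ) / (d * q)| ≤
      2 / ((a * d : ℕ) : ℝ) + 10 * η * a / (d * q)

/-- (BL, assume `hX : StBOX`, `hE : StEDG`, `hDB : StDB`.) PROOF. Let `η = a ^ (- δ / 10)` (for small `a` with `η > 1 / 10` the bound is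
trivial with a large `C`: the left side is at most `3 a ^ 3`). Let `μ_i = (1 + η) ^ (i - 1)`, `i ≥ 0`, real numbers. Divide the sum
into the parts `μ_i < m ≤ μ_{i+1}`, `μ_j < n ≤ μ_{j+1}` (`m ≥ 1 > μ_0`), `0 ≤ i, j ≤ C a ^ (δ / 10) log a`. For a part let
`P = μ_i μ_j`, `E₁, E₂` from EDG. Replacing `cb a d β (m n) - |Bb a| / (d m n)` by the bracket of BOX with `κ = 1 + a β` costs in
total (all parts together) at most: (1) `∑_{b near the ends} #{(m, n) : m n ∣ a b + 1} ≤ (2 η a + 8) max τ(a b + 1) ^ 2 ≤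
C a ^ (1 - δ / 10 + ε')`; (2) `∑_{m, n} (2 / (a d) + 10 η a / (d m n)) ≤ 2 a ^ (1/8) + 10 η a (1 + log a) ^ 2`. BOX for a part:
`M₁ = ⌊μ_i⌋`, `M₂ = min(⌊μ_{i+1}⌋, ⌊a ^ (1 - δ)⌋)`, `N₂ = min(⌊μ_{j+1}⌋, ⌊a ^ (1/8 - δ)⌋)`, `be n = 0` for `n ≤ μ_j`. The first
term is at most `a ^ ((1 - δ)/2) (a d) ^ (3/8) d ^ (1/8) a ^ (1/8 - δ) ≤ a ^ (1 - 1.45 δ)`; the second: `M₂ - M₁ ≤ 2 μ_i`,
`N₂ ≤ 2 μ_j`, `E₂ - E₁ ≤ a ^ 2 / P`: at most `2 μ_i (2 a / μ_i) ^ (1/2) ≤ 3 (μ_i a) ^ (1/2) ≤ 4 a ^ (1 - δ / 2)`. Times the number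
`C a ^ (δ / 5) (log a) ^ 2` of parts and `(a d) ^ ε`, `ε = δ / 100`: at most `C a ^ (1 - δ / 20)`. -/
def StBL : Prop := ∀ δ : ℝ, 0 < δ → δ ≤ 1 / 100 → ∃ C : ℝ, 0 < C ∧ ∀ (a d β : ℕ) (al be : ℕ → ℝ),
  1 ≤ a → 1 ≤ d → (d : ℝ) ≤ (a : ℝ) ^ (δ / 10) → β < d → (∀ m, |al m| ≤ 1) → (∀ n, |be n| ≤ 1) →
  |∑ m ∈ (Icc 1 ⌊(a : ℝ) ^ (1 - δ)⌋₊).filter (fun m => Nat.Coprime m (a * d)),
    ∑ n ∈ (Icc 1 ⌊(a : ℝ) ^ (1 / 8 - δ)⌋₊).filter (fun n => Nat.Coprime n (a * d)),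
      al m * be n * ((cb a d β (m * n) : ℝ) - ((Bb a).card : ℝ) / (d * m * n))| ≤
    C * (a : ℝ) ^ (1 - δ / 20)

/-- (SQ, assume `hDB : StDB`.) PROOF. `p ≤ a` because `p ^ 2 ≤ a b + 1 ≤ a ^ 2` (`a ≥ 2`), and `p ∤ a`. For `p ≤ a ^ (2/3)` there are at most
`a / p ^ 2 + 1` such `b` (one class modulo `p ^ 2`): in total at most `2 a ^ (1 - ε₀) + a ^ (2/3)` (`∑_{m ≥ M} 1 / m ^ 2 ≤ 2 / M`).
For `p > a ^ (2/3)`: `e = (a b + 1) / p ^ 2 ≤ a ^ (2/3)`, and `(e, p)` determines `b`. For given `e` (prime to `a`) `p ≤ a` is a root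
of `e p ^ 2 ≡ 1 (mod a)`: there are at most `2 τ(a)` roots: if `x₀` is a root, `x` another, `g = gcd(x - x₀, a)`, then
`a / g ∣ x + x₀`, and `gcd(g, a / g)` divides `2 x₀` and is prime to `x₀`, so it is at most `2`: for given `g` there are at most
two `x` modulo `a`. Total `≤ a ^ (2/3) 2 τ(a)`. -/
def StSQ : Prop := ∀ θ ε : ℝ, 0 < θ → θ ≤ 1 / 10 → 0 < ε → ∃ C : ℝ, 0 < C ∧ ∀ a : ℕ, 1 ≤ a →
  ((Bb a \ B1 a θ).card : ℝ) ≤ C * (a : ℝ) ^ (1 - θ + ε)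

/-! ## W. the weights -/

/-- (WFS, no hypotheses.) Sums, scaling by `- 1`, monotonicity, the trivial weights. PROOF. Concatenate the lists of functions
(indices `t < T₁`, then `t - T₁`). Level: if `M N = a ^ x'` and `x ≤ x'` then either `M ≥ a ^ (x' - x)` and
`(M / a ^ (x' - x)) N = a ^ x`, or `N = a ^ x' / M > a ^ x` and `1 · a ^ x = a ^ x`; `Dec` is monotone in `M` and `N`.
The delta function: `al 0 1 = be 0 1 = 1`, `Sp` of `1` is clear. -/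
def StWFS : Prop := ∀ (a j0 j : ℕ) (ω x : ℝ), 1 ≤ a → j0 ≤ j →
  (∀ (T₁ T₂ : ℕ) (B₁ B₂ : ℝ) (l₁ l₂ : ℕ → ℝ), WF a ω j0 j x T₁ B₁ l₁ → WF a ω j0 j x T₂ B₂ l₂ →
    WF a ω j0 j x (T₁ + T₂) (max B₁ B₂) (fun q => l₁ q + l₂ q)) ∧
  (∀ (T : ℕ) (B : ℝ) (l : ℕ → ℝ), WF a ω j0 j x T B l → WF a ω j0 j x T B (fun q => - l q)) ∧
  (∀ (T : ℕ) (B x' : ℝ) (l : ℕ → ℝ), 0 ≤ x → x ≤ x' → WF a ω j0 j x T B l → WF a ω j0 j x' T B l) ∧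
  (∀ (T j' : ℕ) (B : ℝ) (l : ℕ → ℝ), j ≤ j' → WF a ω j0 j x T B l → WF a ω j0 j' x T B l) ∧
  WF a ω j0 j x 0 0 (fun _ => 0) ∧
  (0 ≤ x → WF a ω j0 j x 1 1 (fun q => if q = 1 then 1 else 0))

/-- (WFX, no hypotheses.) The support. PROOF. Use the decomposition for `M = a ^ x`, `N = 1`: if `l q ≠ 0` some
`al t m * be t n ≠ 0` with `m n = q`, `n ≤ 1`, `n ≠ 0` (squarefree), so `q = m`. -/
def StWFX : Prop := ∀ (a j0 j : ℕ) (ω x : ℝ) (T : ℕ) (B : ℝ) (l : ℕ → ℝ), 1 ≤ a → 0 ≤ x →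
  WF a ω j0 j x T B l → ∀ q, l q ≠ 0 → Sp a ω j0 j q ∧ (q : ℝ) ≤ (a : ℝ) ^ x

/-- (WFB, no hypotheses.) Multiplication by the primes of the next box. PROOF. `t = a ^ ((j + 1) ω)`. Let
`M N = a ^ (x + (j + 1) ω) ≥ t ^ 2` (because `(j + 1) ω ≤ x`), so `M ≥ t` or `N ≥ t`; say `M ≥ t` (the other case is symmetric). Take
the decomposition of `l` for `M / t`, `N`, and `al' t m = ∑_{p ∈ bx j, p ∣ m} al t (m / p)`, `be' = be`. If `al t (m / p) ≠ 0`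
then `m / p` has only primes of boxes `< j`, all `< a ^ (j ω) ≤ p`, so `p` is the only prime of box `j` dividing `m`
(`|al' t m| ≤ B`), `m` is squarefree, `m ≤ p M / t ≤ M`. Identity: `bm l q = ∑_p ∑_t ∑_{u v = q / p, (u, v) = 1} al t u be t v`
and `(u, v) ↦ (p u, v)`; `p ∤ v` because `be t v ≠ 0`, so `gcd(p u, v) = gcd(u, v)`. -/
def StWFB : Prop := ∀ (a j0 j : ℕ) (ω x : ℝ) (T : ℕ) (B : ℝ) (l : ℕ → ℝ), 1 ≤ a → 0 < ω → j0 ≤ j →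
  ((j : ℝ) + 1) * ω ≤ x → 0 ≤ B → WF a ω j0 j x T B l →
    WF a ω j0 (j + 1) (x + ((j : ℝ) + 1) * ω) T B (bm a ω j l)

/-- (WFJ, no hypotheses.) Multiplication by the primes of a higher box `j'` at a fixed pair `(M, N)`, the prime goes to the first
factor. PROOF. As for WFB (case `M ≥ t`), `t = a ^ ((j' + 1) ω)`, with the decomposition of `l` for `M / t`, `N`. The primes of the
boxes `i ≥ j0` are `≥ a ^ (j0 ω)` and do not divide `a`. -/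
def StWFJ : Prop := ∀ (a j0 j j' : ℕ) (ω x M N : ℝ) (T : ℕ) (B : ℝ) (l : ℕ → ℝ), 1 ≤ a → 0 < ω →
  j0 ≤ j → j ≤ j' → 0 ≤ B → 1 ≤ N → (a : ℝ) ^ (((j' : ℝ) + 1) * ω) ≤ M →
  M * N = (a : ℝ) ^ (x + ((j' : ℝ) + 1) * ω) → WF a ω j0 j x T B l →
    Dec (Rg a ((a : ℝ) ^ ((j0 : ℝ) * ω))) M N T B (bm a ω j' l)

/-- (WFP, no hypotheses.) Pairs of primes of one box. PROOF. `t = a ^ ((j + 1) ω)`, `M N = a ^ x ≥ t ^ 3`. If `M ≥ t ^ 2` let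
`al 0 = pr2`, `be 0` = delta at `1`; if `N ≥ t ^ 2` conversely; otherwise `M, N ≥ t`, `al 0` = indicator of `bx j`, `be 0` = one
half of it: `cc (al 0) (be 0) (p p') = 1/2 + 1/2`. -/
def StWFP : Prop := ∀ (a j0 j : ℕ) (ω x : ℝ), 1 ≤ a → 0 < ω → j0 ≤ j → 3 * (((j : ℝ) + 1) * ω) ≤ x →
  WF a ω j0 (j + 1) x 1 1 (pr2 a ω j)

/-- (MER, assume `hM : Pool.Agent.Helper60.GP.StM2`.) PROOF. `z = a ^ ω`, `z ^ i ≤ p < z ^ (i + 1)`, `log ((i + 1) / i)`. The primes of the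
box dividing `a` are at most `log₂ a` many and `≥ a ^ (i ω)`: their contribution tends to `0`. -/
def StMER : Prop := ∀ (ω : ℝ) (i : ℕ), 0 < ω → 1 ≤ i →
  Tendsto (fun a : ℕ => ∑ p ∈ bx a ω i, (1 : ℝ) / p) atTop (𝓝 (gm i))

/-- (PAR, assume `hM : StMER`.) PROOF. All products `p p' < a ^ 2` are in the range, and the sum is
`((∑ 1 / p) ^ 2 - ∑ 1 / p ^ 2) / 2`, `∑ 1 / p ^ 2 ≤ a ^ (- i ω) ∑ 1 / p → 0`. -/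
def StPAR : Prop := ∀ (ω : ℝ) (i : ℕ), 0 < ω → 1 ≤ i → ((i : ℝ) + 1) * ω ≤ 1 →
  Tendsto (fun a : ℕ => ms a (pr2 a ω i)) atTop (𝓝 (gm i ^ 2 / 2))

/-- (MSB, assume `hX : StWFX`.) PROOF. `∑_q (1/q) ∑_{p ∣ q} l(q / p) = ∑_p ∑_{q'} l(q') / (p q')`; if `l q' ≠ 0` then
`q' ≤ a ^ x`, `p < a ^ ((j + 1) ω)`, so `p q' ≤ a ^ 2` and `q' ≤ a ^ 2`. -/
def StMSB : Prop := ∀ (a j0 j j' : ℕ) (ω x : ℝ) (T : ℕ) (B : ℝ) (l : ℕ → ℝ), 1 ≤ a → 0 < ω → 0 ≤ x →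
  x + ((j' : ℝ) + 1) * ω ≤ 2 → WF a ω j0 j x T B l →
    ms a (bm a ω j' l) = (∑ p ∈ bx a ω j', (1 : ℝ) / p) * ms a l

/-- (INQ, assume `hX : StWFX`.) Divisor sums of `bm` and `pr2`. PROOF. `∑_{q ∣ n} bm l q = ∑_{p ∈ bx j', p ∣ n} ∑_{q' ∣ n / p} l q'`
(`q = p q'`), and `q'` is prime to `p` if `l q' ≠ 0`, so `q' ∣ n / p` iff `q' ∣ n`. Second: `pr2` counts the pairs `p < p'`. -/
def StINQ : Prop := ∀ (a j0 j j' : ℕ) (ω x : ℝ) (T : ℕ) (B : ℝ) (l : ℕ → ℝ) (n : ℕ), 2 ≤ a → 0 < ω →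
  0 ≤ x → j ≤ j' → 1 ≤ n → WF a ω j0 j x T B l →
    (∑ q ∈ n.divisors, bm a ω j' l q = (ej a ω j' n : ℝ) * ∑ q ∈ n.divisors, l q) ∧
    (∑ q ∈ n.divisors, pr2 a ω j' q = (ej a ω j' n : ℝ) * ((ej a ω j' n : ℝ) - 1) / 2)

/-- (US, assume `hS : StWFS`, `hB : StWFB`, `hP : StWFP`, `hMB : StMSB`, `hPA : StPAR`, `hM : StMER`, `hI : StINQ`.) The upper
step. PROOF. Weights `Lam₁ - bm Lam₂ + pr2` (box `j`). Level: `(N - (j + 1)) ω ≥ (j + 1) ω`, `N ω ≥ 3 (j + 1) ω`. With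
`e = ej a ω j n`, `I = ind j0 j n`: `ind j0 (j + 1) n = I 1[e = 0]`, and the divisor sum is at least
`I - e I + e (e - 1) / 2 ≥ I 1[e = 0]` (`(e - 1)(e - 2) ≥ 0`, `0 ≤ I ≤ 1`; INQ). Main term: MSB, PAR, MER (`2 (j + 1) ω ≤ 2`). -/
def StUS : Prop := ∀ (ω : ℝ) (j0 N j : ℕ) (μ μ' : ℝ), 0 < ω → 1 ≤ j0 → j0 ≤ j → 3 * (j + 1) ≤ N →
  (N : ℝ) * ω ≤ 2 → UpP ω j0 N j μ → LoP ω j0 (N - (j + 1)) j μ' →
    UpP ω j0 N (j + 1) (μ - gm j * μ' + gm j ^ 2 / 2)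

/-- (LS, assume `hS : StWFS`, `hB : StWFB`, `hMB : StMSB`, `hM : StMER`, `hI : StINQ`.) The lower step. PROOF. Weights
`Lam₁ - bm Lam₂`; the divisor sum is at most `I - e I ≤ I 1[e = 0]`. -/
def StLS : Prop := ∀ (ω : ℝ) (j0 N j : ℕ) (μ μ' : ℝ), 0 < ω → 1 ≤ j0 → j0 ≤ j → 2 * (j + 1) ≤ N →
  (N : ℝ) * ω ≤ 2 → LoP ω j0 N j μ → UpP ω j0 (N - (j + 1)) j μ' →
    LoP ω j0 N (j + 1) (μ - gm j * μ')

/-- (TRV, assume `hS : StWFS`.) PROOF. Delta function at `1`: `Pr a ω j0 j0 = ∅`, divisor sum `1`, main term `1`. Keeping the weights: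
`ind j0 (j + 1) n ≤ ind j0 j n`. Zero weights. -/
def StTRV : Prop := ∀ (ω : ℝ) (j0 N j : ℕ) (μ : ℝ), 0 < ω → j0 ≤ j →
  UpP ω j0 N j0 1 ∧ LoP ω j0 N j0 1 ∧ (UpP ω j0 N j μ → UpP ω j0 N (j + 1) μ) ∧ LoP ω j0 N j 0

/-- (POS, assume `hX : StWFX`.) PROOF. For `a` large and all `X`: `0 ≤ (1/X) ∑_{n ≤ X} ind n ≤ (1/X) ∑_{n ≤ X} ∑_{q ∣ n} Lam q =
∑_q Lam q ⌊X / q⌋ / X`, which tends to `ms a Lam` as `X → ∞` (finite support, inside `q ≤ a ^ 2`). So `ms a Lam ≥ 0`. -/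
def StPOS : Prop := ∀ (ω : ℝ) (j0 N j : ℕ) (μ : ℝ), 0 < ω → (N : ℝ) * ω ≤ 2 → UpP ω j0 N j μ → 0 ≤ μ

/-! ## D. the deterministic recursion -/

/-- (D1, no hypotheses.) PROOF. `V_j = j0 / j`, `A = 40`. Induction on `j`, for all `N` at once; `j = j0`: `u0`, `l0`, `μ = 1`. Write
`s = N / j`, `s' = N / (j + 1) = s j / (j + 1)`, `s₋ = (N - j - 1) / j = s - 1 - 1 / j`, `γ = gm j ∈ [1 / (j + 1), 1 / j]`. All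
`s ≤ S` because `N ≤ S j0 ≤ S j`. Basic estimate (for `s' ≥ 4`), `j ≥ j*`:
`Q := (j / (j + 1)) e^(-s') - e^(-s) - γ e^(-s₋) ≥ e^(-s) ((s - 1) / (j + 1) - s / (j + 1) ^ 2 - e^(1 + 1 / j) / j) ≥ e^(-S) / (5 j)`,
because `e^(-s') ≥ e^(-s) (1 + s / (j + 1))` and `s - 1 - e > 0.28`. Lower bound, `4 (j + 1) ≤ N`: rule `ls` with the lower bound for
`(N, j)` and the upper bound for `(N - (j + 1), j)` (`3 j ≤ N - (j + 1)`); new value `≥ V_j (1 - A e^(-s)) - γ V_j (1 + A e^(-s₋))`,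
and this is `≥ V_{j+1} (1 - A e^(-s'))` because the difference divided by `V_j` is
`(1 / (j + 1) - γ) + A Q ≥ - 1 / j ^ 2 + 8 e^(-S) / j ≥ 0`. Upper bound, `5 (j + 1) ≤ N`: rule `us` (`4 j ≤ N - (j + 1)`); new value
`≤ V_j (1 + A e^(-s)) - γ V_j (1 - A e^(-s₋)) + γ ^ 2 / 2 ≤ V_{j+1} (1 + A e^(-s'))`: difference divided by `V_j`:
`(γ - 1 / (j + 1)) + A Q - γ ^ 2 / (2 V_j) ≥ 8 e^(-S) / j - S / j ^ 2 ≥ 0` (`1 / V_j = j / j0 ≤ S`). Upper bound,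
`3 (j + 1) ≤ N < 5 (j + 1)`: rule `uk`; `V_j (1 + A e^(-s)) ≤ V_{j+1} (1 + A e^(-s'))` iff
`(1 + 1 / j)(1 + A e^(-s)) ≤ 1 + A e^(-s')`, which follows from `A e^(-s) (s' - 1) ≥ 1`: `s ≤ s' + 5 / j` and
`(s' - 1) e^(-s') ≥ 4 e^(-5) > 0.0269` for `3 ≤ s' ≤ 5` (decreasing for `s' ≥ 2`), `40 · 0.0269 > 1.07 ≥ e^(5 / j)`. -/
def StD1 : Prop := ∀ S : ℕ, ∃ js : ℕ, ∀ j0 : ℕ, js ≤ j0 → ∀ U L : ℕ → ℕ → ℝ → Prop,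
  Ax j0 (S * j0) U L → ∀ j N : ℕ, j0 ≤ j → N ≤ S * j0 →
  (4 * j ≤ N → ∃ μ : ℝ, L N j μ ∧ (j0 : ℝ) / j * (1 - 40 * Real.exp (-((N : ℝ) / j))) ≤ μ) ∧
  (3 * j ≤ N → ∃ μ : ℝ, U N j μ ∧ μ ≤ (j0 : ℝ) / j * (1 + 40 * Real.exp (-((N : ℝ) / j))))

/-- (D2, no hypotheses.) PROOF. Let `η > 0`, `η'` small, `j0` large, `i j ≤ K N`. If `(i + 1) j ≤ K N` use the hypothesis at
`(N, j)`: `c ≤ ((i + 1) c - l) / i` as `l ≤ c`. Otherwise let `j₁ = max(j0, ⌊K N / (i + 1)⌋) ≤ j` (`< j` or `= j = j0`) and start with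
`U N j₁ μ₁`, `μ₁ ≤ (j0 / j₁)(c + η')` (hypothesis, or rule `u0` if `j₁ = j0`, as `1 ≤ c`). For `j₁ ≤ j' < j` apply rule `us`: `3 (j' + 1) ≤ 3 j ≤ N`;
with `L (N - (j' + 1)) j' μ'`, `μ' ≥ (j0 / j') l'`, `l' = max(l - η', 0)` (second hypothesis: `K (N - j' - 1) ≥ (i - K)(j' + 1)`;
or rule `lz`). As `gm j' ≥ 1 / (j' + 1)` and `gm j' ≤ 1 / j'`: the final value is at most
`(j0 / j₁)(c + η') - j0 l' (1 / j₁ - 1 / j) + ∑_{j' ≥ j₁} 1 / (2 j' ^ 2)`. Multiply by `j / j0 ≤ S`, `ρ = j / j₁`: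
`ρ (c + η') - l' (ρ - 1) + S / j₁`, increasing in `ρ`, and `ρ ≤ (i + 1) / i + C / j0`: `j ≤ K N / i` and `K N < (i + 1)(j₁ + 1)`. -/
def StD2 : Prop := ∀ (S K i : ℕ) (c l : ℝ), 1 ≤ K → 3 * K ≤ i → 1 ≤ c → 0 ≤ l → l ≤ 1 →
  GUp S (((i : ℝ) + 1) / K) c → GLo S (((i : ℝ) - K) / K) l →
    GUp S ((i : ℝ) / K) ((((i : ℝ) + 1) * c - l) / i)

/-- (D3, no hypotheses.) PROOF. As for D2 with the rules `l0`, `ls` (`2 (j' + 1) ≤ 2 j ≤ N`): the final value is at least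
`(j0 / j₁)(c - η') - ∑ gm j' (j0 / j')(u + η')`, `gm j' ≤ 1 / j'`, `∑_{j₁ ≤ j' < j} 1 / j' ^ 2 ≤ 1 / j₁ - 1 / j + 1 / j₁ ^ 2`. Multiply by
`j / j0`: `ρ (c - η') - (u + η')(ρ - 1) - C / j₁`, decreasing in `ρ` as `c ≤ u`. The start `j₁ = j0`: rule `l0`, `c ≤ 1`. If
`(i + 1) j ≤ K N` use the hypothesis: `((i + 1) c - u) / i ≤ c`. -/
def StD3 : Prop := ∀ (S K i : ℕ) (c u : ℝ), 1 ≤ K → 2 * K ≤ i → c ≤ 1 → 1 ≤ u →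
  GLo S (((i : ℝ) + 1) / K) c → GUp S (((i : ℝ) - K) / K) u →
    GLo S ((i : ℝ) / K) ((((i : ℝ) + 1) * c - u) / i)

/-- (D4, no hypotheses.) PROOF. (1) If `3 j ≤ N` use the hypothesis (`c ≤ 3 c / s`). Otherwise let `j₁ = ⌊N / 3⌋ < j`. If `j₁ ≥ j0` the
hypothesis at `(N, j₁)` and the rule `uk` up to `j`: `μ ≤ (j0 / j₁)(c + η')`, `j / j₁ ≤ (N / s) / (N / 3 - 1) → 3 / s`. If
`j₁ < j0` then `N < 3 j0`; `u0` and `uk`: `μ = 1 ≤ (j0 / j)(3 c / s)`, as `j ≤ N / s < 3 j0 / s` and `c ≥ 1`. (2) the same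
computation (`j₁ = ⌊N / 3⌋ ≥ j0`, `j ≥ j₁`): `μ N ≤ (j0 / j₁)(c + η') N ≤ 3 j0 (c + η)`. -/
def StD4 : Prop := ∀ (S : ℕ) (c : ℝ), 1 ≤ c → GUp S 3 c →
  (∀ s : ℝ, 0 < s → s ≤ 3 → GUp S s (3 * c / s)) ∧
  (∀ η : ℝ, 0 < η → ∃ js : ℕ, ∀ j0 : ℕ, js ≤ j0 → ∀ U L : ℕ → ℕ → ℝ → Prop, Ax j0 (S * j0) U L →
    ∀ j N : ℕ, j0 ≤ j → 3 * j0 ≤ N → N ≤ S * j0 → N ≤ 3 * j →
      ∃ μ : ℝ, U N j μ ∧ μ * N ≤ 3 * j0 * (c + η))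

/-- (D5, assume `h1 : StD1`, `h2 : StD2`, `h3 : StD3`, `h4 : StD4`.) The table. PROOF. `K = 16`. D1 gives `GUp S s (1 + 40 e^(-14))`,
`GLo S s (1 - 40 e^(-14))` for `s ≥ 14` (`40 e^(-14) < 0.0000334`). Write `U_i`, `L_i` for valid constants at `s = i / 16`
(`GUp` and `GLo` are monotone in the constant and antitone, respectively monotone, in `s`: a constant valid at `s` is valid at `s' ≥ s`).
Start: `U_i = 14 · 1.0000334 · 16 / i` (D2 with `l = 0`), `L_i = 0` (rule `lz`) for `i < 224`. One pass: for `i = 223, ..., 48`: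
`U_i := min(U_i, ((i + 1) U_{i+1} - L_{i-16}) / i)` (D2); for `i < 48`: `U_i = U_48 · 48 / i` (D4); for `i = 223, ..., 32`:
`L_i := max(L_i, ((i + 1) L_{i+1} - U_{i-16}) / i)` (D3; keep `U ≥ 1`, `0 ≤ L ≤ 1`). After 20 passes with rounding to six decimals
(up for `U`, down for `L`): `U_48 = 1.229245`, `L_64 = 0.969157`, `U_64 = 1.030364`. In Lean: lists of natural numbers, one lemma
that a pass preserves validity, and `decide +kernel` for the result. -/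
def StD5 : Prop := ∀ S : ℕ, GUp S 3 (12293 / 10000) ∧ GLo S 4 (9691 / 10000) ∧ GUp S 4 (10304 / 10000)

/-- (D6, no hypotheses.) PROOF. `N = 4492 u`, `J = 3996 u`, `z = 1123 u`. `gm j ≤ 1 / j`, and for `z ≤ j < J`:
`1 / (N - j - 1) ≤ (1 + 1 / (400 u)) / (N - j)` and `(1 / j - 1 / J) / (N - j) = (1 / N)(1 / j) - (1 / J - 1 / N) / (N - j)`. As
`∑_{z ≤ j < J} 1 / j ≤ log ((J - 1) / (z - 1))` and `∑_{z ≤ j < J} 1 / (N - j) ≥ log ((N - z + 1) / (N - J + 1))` the sum is at most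
`(1 + 1 / (400 u)) 3 z ((1 / N) log ((J - 1) / (z - 1)) - (1 / J - 1 / N) log ((N - z + 1) / (N - J + 1)))`, which tends to
`(3/4) log (3996 / 1123) - 3369 (1 / 3996 - 1 / 4492) log (3369 / 496) = 0.77362`. -/
def StD6 : Prop := ∃ u₀ : ℕ, ∀ u : ℕ, u₀ ≤ u →
  ∑ j ∈ Ico (1123 * u) (3996 * u), gm j * (1 - (j : ℝ) / (3996 * u)) *
    (3 * (1123 * u) / (4492 * u - ((j : ℝ) + 1))) ≤ 7765 / 10000

/-- (AX, assume `hU : StUS`, `hL : StLS`, `hT : StTRV`.) The rules hold for the weights. PROOF. Immediate; `N ω ≤ Nm ω ≤ 2`. -/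
def StAX : Prop := ∀ (ω : ℝ) (j0 Nm : ℕ), 0 < ω → 1 ≤ j0 → (Nm : ℝ) * ω ≤ 2 →
  Ax j0 Nm (fun N j μ => UpP ω j0 N j μ) (fun N j μ => LoP ω j0 N j μ)

/-- (FS, assume `hA : StAX`, `h4 : StD4`, `h5 : StD5`, `h6 : StD6`.) PROOF. Let `S = ⌈2 / θ⌉ + 1`, `u` large, `j0 = ⌊4000 u θ⌋`
(`j0 ≥ js`, `j0 ≤ 40 u`, `1123 u ≤ 4492 u ≤ S j0`), `ω = 1 / (4000 u)`; AX with `Nm = S j0`? choose `S` with `S j0 ω ≤ 2`: as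
`4492 u ω = 1.123`, take `S = ⌈1.5 / θ⌉` (then `S j0 ω ≤ (1.5 / θ + 1) θ ≤ 2`, and `S j0 ≥ 4492 u` for large `u`).
`LoP` at `(4492 u, 1123 u)`: `μm ≥ (j0 / (1123 u))(0.9691 - η)`; `UpP`: `μp ≤ (j0 / (1123 u))(1.0304 + η)`; for
`1123 u ≤ j < 3996 u` and `N' = 4492 u - (j + 1) ∈ [495 u, 3369 u]` D4 (2) (`N' ≤ 3 · 1123 u`): `μ_j N' ≤ 3 j0 (1.2293 + η)`. So
`∑ gm j (1 - j / (3996 u)) μ_j ≤ (j0 / (1123 u)) (1.2293 + η) · 0.7765` by D6, and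
`0.9691 - 0.002 · 1.0304 - 1.001 · 1.0021 · 1.2293 · 0.7765 > 0.009`. -/
def StFS : Prop := ∀ θ : ℝ, 0 < θ → θ ≤ 1 / 100 → ∃ u j0 : ℕ, 1 ≤ u ∧ 1 ≤ j0 ∧ j0 ≤ 1123 * u ∧
  (j0 : ℝ) * (1 / (4000 * u)) ≤ θ ∧ ∃ (μm μp : ℝ) (μ : ℕ → ℝ),
    LoP (1 / (4000 * u)) j0 (4492 * u) (1123 * u) μm ∧
    UpP (1 / (4000 * u)) j0 (4492 * u) (1123 * u) μp ∧
    (∀ j ∈ Ico (1123 * u) (3996 * u),
      UpP (1 / (4000 * u)) j0 (4492 * u - (j + 1)) (1123 * u) (μ j)) ∧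
    0 < μm - 2 / 1000 * μp - 1001 / 1000 * (10021 / 10000) *
      ∑ j ∈ Ico (1123 * u) (3996 * u), gm j * (1 - (j : ℝ) / (3996 * u)) * μ j

/-! ## C. combination -/

/-- (C1, no hypotheses.) Local densities. PROOF. `Fb a b` modulo `p` depends on `a`, `b` modulo `p`. (1) For `p = 2, 3, 5` and every
`a` modulo `p` there is `b` modulo `p` with `p ∤ Fb a b` (finite check), Chinese remainder theorem. (2) `p ≥ 7`: `a b + 1` has at most one root; `QQ a b =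
(a + 2) b ^ 2 - (4 a + 6) b + (a + 2) ^ 2 + a + 1` has at most two: if `p ∣ a + 2` then `4 a + 6 ≡ - 2`. -/
def StC1 : Prop := (∀ a : ℕ, ∃ b0 : ℕ, b0 < 30 ∧ ∀ b : ℕ, b % 30 = b0 →
    ¬ (2 : ℤ) ∣ Fb a b ∧ ¬ (3 : ℤ) ∣ Fb a b ∧ ¬ (5 : ℤ) ∣ Fb a b) ∧
  ∀ a p : ℕ, p.Prime → 7 ≤ p → rt a p ≤ 3

/-- (C2, no hypotheses.) PROOF. `30` and the primes of `T` are pairwise coprime; Chinese remainder theorem (induction over `T`); `Fb a b`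
modulo `p` depends on `b` modulo `p`. -/
def StC2 : Prop := ∀ (a b0 : ℕ) (T : Finset ℕ), b0 < 30 → (∀ p ∈ T, p.Prime ∧ 7 ≤ p) →
  (((range (30 * ∏ p ∈ T, p)).filter (fun β : ℕ => β % 30 = b0 ∧ ∀ p ∈ T, (p : ℤ) ∣ Fb a β)).card =
    ∏ p ∈ T, rt a p) ∧
  ∀ b : ℕ, (b % 30 = b0 ∧ ∀ p ∈ T, (p : ℤ) ∣ Fb a b) ↔
    ((b % (30 * ∏ p ∈ T, p)) % 30 = b0 ∧ ∀ p ∈ T, (p : ℤ) ∣ Fb a ((b % (30 * ∏ p ∈ T, p) : ℕ)))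

/-- (C3, assume `hL : StBL`, `h2 : StC2`.) PROOF. `d = 30 ∏ T`. By C2 the sum over `b` is the sum over the classes `β` of C2 of
`∑_{m, n} al m be n cb a d β (m n)`; apply BL to each (divide `al`, `be` by `B`; if `B = 0` all is `0`; the factors with `al m ≠ 0` are
prime to `a d`). The number of classes is `∏ rt a p`, and `(∏ rt a p) |Bb a| / (d m n) = (|Bb a| / 30) (∏ ga a p) / (m n)`. -/
def StC3 : Prop := ∀ δ : ℝ, 0 < δ → δ ≤ 1 / 100 → ∃ C : ℝ, 0 < C ∧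
  ∀ (a b0 : ℕ) (T : Finset ℕ) (B : ℝ) (al be : ℕ → ℝ), 1 ≤ a → b0 < 30 →
  (∀ p ∈ T, p.Prime ∧ 7 ≤ p) → ((30 * ∏ p ∈ T, p : ℕ) : ℝ) ≤ (a : ℝ) ^ (δ / 10) →
  (∀ m, |al m| ≤ B) → (∀ n, |be n| ≤ B) →
  (∀ m, al m ≠ 0 → Nat.Coprime m (a * (30 * ∏ p ∈ T, p))) →
  (∀ m, be m ≠ 0 → Nat.Coprime m (a * (30 * ∏ p ∈ T, p))) →
  |∑ b ∈ (Bb a).filter (fun b => b % 30 = b0 ∧ ∀ p ∈ T, (p : ℤ) ∣ Fb a b),
      ∑ m ∈ Icc 1 ⌊(a : ℝ) ^ (1 - δ)⌋₊, ∑ n ∈ Icc 1 ⌊(a : ℝ) ^ (1 / 8 - δ)⌋₊,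
        al m * be n * (if m * n ∣ a * b + 1 then (1 : ℝ) else 0) -
    ((Bb a).card : ℝ) / 30 * (∏ p ∈ T, ga a p) *
      ∑ m ∈ Icc 1 ⌊(a : ℝ) ^ (1 - δ)⌋₊, ∑ n ∈ Icc 1 ⌊(a : ℝ) ^ (1 / 8 - δ)⌋₊,
        al m * be n / (m * n)| ≤
    (∏ p ∈ T, (rt a p : ℝ)) * (C * B ^ 2 * (a : ℝ) ^ (1 - δ / 20))

/-- (C4, assume `h3 : StC3`, `hLv : StLevel`.) PROOF. `u` is given, `StLevel u` gives `B₀`. Every `T ∈ fm i a θ u` has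
`∏ T ≤ w ^ B₀`, `w = ⌊a ^ θ⌋`, if `w ≥ 1`. Let `θ₁ = δ / (200 (B₀ + 1))`; for `θ ≤ θ₁` and `a` large
`30 ∏ T ≤ 30 a ^ (δ / 200) ≤ a ^ (δ / 10)`. Sum C3 with the signs `(-1) ^ |T|` over `T ∈ fm i a θ u`
(`∏_{p ∈ T} 1[p ∣ Fb a b]` is the indicator of `∀ p ∈ T`; the supports of `al`, `be` are prime to `30 ∏ T` for `a ^ θ > 5`):
`T ↦ ∏ T` is injective on sets of primes, so there are at most `w ^ B₀` sets `T`, and `∏ rt a p ≤ ∏ T ≤ w ^ B₀`. The error is at most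
`a ^ (2 δ / 200) C B ^ 2 a ^ (1 - δ / 20)`. -/
def StC4 : Prop := ∀ (δ : ℝ) (u : ℕ), 0 < δ → δ ≤ 1 / 100 → ∃ θ₁ : ℝ, 0 < θ₁ ∧ ∀ θ : ℝ, 0 < θ → θ ≤ θ₁ →
  ∃ (C : ℝ) (a₀ : ℕ), 0 < C ∧ ∀ (i a b0 : ℕ) (B : ℝ) (al be : ℕ → ℝ), a₀ ≤ a → b0 < 30 →
  (∀ m, |al m| ≤ B) → (∀ n, |be n| ≤ B) →
  (∀ m, al m ≠ 0 → Rg a ((a : ℝ) ^ θ) m) → (∀ m, be m ≠ 0 → Rg a ((a : ℝ) ^ θ) m) →
  |∑ b ∈ (Bb a).filter (fun b => b % 30 = b0), th i a θ u b *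
      ∑ m ∈ Icc 1 ⌊(a : ℝ) ^ (1 - δ)⌋₊, ∑ n ∈ Icc 1 ⌊(a : ℝ) ^ (1 / 8 - δ)⌋₊,
        al m * be n * (if m * n ∣ a * b + 1 then (1 : ℝ) else 0) -
    ((Bb a).card : ℝ) / 30 * TH i a θ u *
      ∑ m ∈ Icc 1 ⌊(a : ℝ) ^ (1 - δ)⌋₊, ∑ n ∈ Icc 1 ⌊(a : ℝ) ^ (1 / 8 - δ)⌋₊,
        al m * be n / (m * n)| ≤ C * B ^ 2 * (a : ℝ) ^ (1 - δ / 40)

/-- (C5, no hypotheses.) PROOF. `∑_{q ∣ k} l q = ∑_t ∑_{(m, n) coprime, m n ∣ k} al t m be t n`, and for `m n ∣ k` with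
`al t m ≠ 0 ≠ be t n` the numbers `m`, `n` are coprime, since a common prime `p ≥ z` would have `p ^ 2 ∣ k`. The ranges contain all
`m`, `n` in the supports. -/
def StC5 : Prop := ∀ (a k T : ℕ) (z M N : ℝ) (l : ℕ → ℝ) (al be : ℕ → ℕ → ℝ), 1 ≤ k →
  (∀ p : ℕ, p.Prime → z ≤ (p : ℝ) → ¬ p ^ 2 ∣ k) →
  (∀ t m, al t m ≠ 0 → Rg a z m ∧ (m : ℝ) ≤ M) → (∀ t m, be t m ≠ 0 → Rg a z m ∧ (m : ℝ) ≤ N) →
  (∀ q, l q = ∑ t ∈ range T, cc (al t) (be t) q) →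
  ∑ q ∈ k.divisors, l q = ∑ t ∈ range T, ∑ m ∈ Icc 1 ⌊M⌋₊, ∑ n ∈ Icc 1 ⌊N⌋₊,
    al t m * be t n * (if m * n ∣ k then (1 : ℝ) else 0)

/-- (C6, no hypotheses.) The main term of a decomposition. PROOF. `∑_q l q / q = ∑_t ∑_{(m, n) coprime} al t m be t n / (m n)`
(`M N ≤ a ^ 2`), and the pairs that are not coprime have a common prime `p ≥ z` (`al t m ≠ 0`), so they contribute at most
`T B ^ 2 ∑_{p ≥ z} p ^ (-2) (∑_{m ≤ a ^ 2} 1 / m) ^ 2 ≤ T B ^ 2 (2 / z) (1 + 2 log a) ^ 2`. -/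
def StC6 : Prop := ∀ (a T : ℕ) (z M N B : ℝ) (l : ℕ → ℝ) (al be : ℕ → ℕ → ℝ), 2 ≤ a → 1 ≤ z → 1 ≤ M →
  1 ≤ N → M * N ≤ (a : ℝ) ^ 2 → (∀ t m, |al t m| ≤ B ∧ |be t m| ≤ B) →
  (∀ t m, al t m ≠ 0 → Rg a z m ∧ (m : ℝ) ≤ M) → (∀ t m, be t m ≠ 0 → Rg a z m ∧ (m : ℝ) ≤ N) →
  (∀ q, l q = ∑ t ∈ range T, cc (al t) (be t) q) →
  |ms a l - ∑ t ∈ range T, ∑ m ∈ Icc 1 ⌊M⌋₊, ∑ n ∈ Icc 1 ⌊N⌋₊, al t m * be t n / (m * n)| ≤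
    T * B ^ 2 * (2 / z) * (1 + 2 * Real.log a) ^ 2

/-- (C7, assume `h4 : StC4`, `h5 : StC5`, `h6 : StC6`, `hQ : StSQ`, `hDB : StDB`.) PROOF. `θ₁` from C4 (and `θ₁ ≤ 1 / 10`). Let
`M = a ^ (1 - δ)`, `N = a ^ (1/8 - δ)`. For `b ∈ B1 a θ` by C5 the divisor sum is the plain double sum `G(b)`. Extend the sum over
`b` from `B1 a θ` to `Bb a`: `|G(b)| ≤ T B ^ 2 τ(a b + 1) ^ 2`, `|th i a θ u b| ≤ ∑_{T ⊆ primes dividing Fb a b} 1 ≤ τ(|Fb a b|)`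
(`Fb a b ≠ 0`, `|Fb a b| ≤ C a ^ 5`), so this costs at most `C a ^ ε' |Bb a \ B1 a θ| ≤ C a ^ (1 - θ + 2 ε')` (SQ). C4 for every
`t < T`, then C6 (`|TH| ≤ ∑_{T'} ∏ 3 / p ≤ ∏_{p ≤ a} (1 + 3 / p) ≤ C (log a) ^ 3`, or `≤ a ^ ε'`). -/
def StC7 : Prop := ∀ (δ : ℝ) (u : ℕ), 0 < δ → δ ≤ 1 / 100 → ∃ θ₁ : ℝ, 0 < θ₁ ∧ ∀ θ : ℝ, 0 < θ → θ ≤ θ₁ →
  ∃ κ : ℝ, 0 < κ ∧ ∀ (T : ℕ) (B : ℝ), ∃ a₀ : ℕ, ∀ (i a b0 : ℕ) (l : ℕ → ℝ), a₀ ≤ a → b0 < 30 →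
    Dec (Rg a ((a : ℝ) ^ θ)) ((a : ℝ) ^ (1 - δ)) ((a : ℝ) ^ (1 / 8 - δ)) T B l →
    |∑ b ∈ (B1 a θ).filter (fun b => b % 30 = b0), th i a θ u b *
        ∑ q ∈ (a * b + 1).divisors, l q -
      ((Bb a).card : ℝ) / 30 * TH i a θ u * ms a l| ≤ (a : ℝ) ^ (1 - κ)

/-- (VL, assume `hM : StMT`, `h1 : StC1`.) PROOF. `1 - ga a p ≥ 1 - 3 / p`, `log (1 - 3 / p) ≥ - 3 / p - 18 / p ^ 2` for `p ≥ 7`, and
`∑_{p ≤ y} 1 / p ≤ log log y + C`. -/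
def StVL : Prop := ∃ c : ℝ, 0 < c ∧ ∀ (a : ℕ) (θ : ℝ), 3 ≤ a → 0 < θ → θ ≤ 1 →
  c / Real.log a ^ 3 ≤ ∏ p ∈ Qs a θ, (1 - ga a p)

/-- (C8, assume `hB : StBonf`, `hF : StFLmain`, `h1 : StC1`.) Properties of the weights of the fundamental lemma. PROOF. `StFLmain` with `κ = 3`,
`ε = 1 / 1000` gives the even number `u` (`0 ≤ ga ≤ 3 / p ≤ 1 / 2` for `p ≥ 7`); `StBonf` with `g p = 1[p ∣ Fb a b]`:
`∏ (1 - g p)` is the indicator function; `StBonf` with `g = ga a` gives the other halves. -/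
def StC8 : Prop := ∃ u : ℕ, Even u ∧ ∀ (a : ℕ) (θ : ℝ), 2 ≤ a → 0 < θ →
  (∀ b : ℕ, th 1 a θ u b ≤ q0 a θ b ∧ q0 a θ b ≤ th 0 a θ u b) ∧
  ∏ p ∈ Qs a θ, (1 - ga a p) ≤ TH 0 a θ u ∧
  TH 0 a θ u ≤ (1 + 1 / 1000) * ∏ p ∈ Qs a θ, (1 - ga a p) ∧
  (1 - 1 / 1000) * ∏ p ∈ Qs a θ, (1 - ga a p) ≤ TH 1 a θ u ∧
  TH 1 a θ u ≤ ∏ p ∈ Qs a θ, (1 - ga a p)

/-- (PT, no hypotheses.) Richert's weights. PROOF. `k := a b + 1 ≤ a ^ 2` (`a ≥ 2`), squarefree. Suppose `Ω(k) ≥ 3`. With `L = 0.999 log a`: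
`∑_{p ∣ k} (1 - log p / L) = Ω(k) - log k / L ≥ 3 - 2 / 0.999 = 0.997997...`. The primes with `p ≥ a ^ 0.999` contribute at most `0`.
The others are in a box `j` with `1123 u ≤ j < 3996 u` (`0.999 = 3996 u / (4000 u)`; `p ∤ a`), and there
`1 - log p / L ≤ 1 - j / (3996 u)` as `p ≥ a ^ (j / (4000 u))`. So the sum in the hypothesis is at least `0.997997 > 10000 / 10021`. -/
def StPT : Prop := ∀ (u a b : ℕ), 1 ≤ u → 2 ≤ a → b ∈ Bb a →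
  (∀ p : ℕ, p.Prime → p ∣ a * b + 1 → (a : ℝ) ^ (((1123 * u : ℕ) : ℝ) * (1 / (4000 * u))) ≤ (p : ℝ)) →
  (∀ p : ℕ, p.Prime → ¬ p ^ 2 ∣ a * b + 1) →
  10021 / 10000 * ∑ j ∈ Ico (1123 * u) (3996 * u), (1 - (j : ℝ) / (3996 * u)) *
    (ej a (1 / (4000 * u)) j (a * b + 1) : ℝ) < 1 →
  ArithmeticFunction.cardFactors (a * b + 1) ≤ 2

/-- (C9, no hypotheses.) The vector sieve inequality at one `b`. PROOF. `I₀ ∈ {0, 1}` the indicator of the condition on `Qs`, `A = ind`,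
`t₁ ≤ I₀ ≤ t₀`, `Am ≤ A ≤ Ap`, `A e_j ≤ Aj`. `t₀ Ap - I₀ A = t₀ (Ap - A) + (t₀ - I₀) A ≤ t₀ (Ap - Am) + (t₀ - t₁) Ap`, and
`I₀ A e_j ≤ t₀ Aj` (`Aj ≥ 0`). -/
def StC9 : Prop := ∀ (I₀ A t₀ t₁ Ap Am : ℝ) (s : Finset ℕ) (e Aj c : ℕ → ℝ), 0 ≤ I₀ → I₀ ≤ 1 →
  0 ≤ A → A ≤ 1 → t₁ ≤ I₀ → I₀ ≤ t₀ → Am ≤ A → A ≤ Ap → (∀ j ∈ s, 0 ≤ c j ∧ 0 ≤ e j) →
  (∀ j ∈ s, A * e j ≤ Aj j) →
  t₀ * Am + t₁ * Ap - t₀ * Ap - ∑ j ∈ s, c j * (t₀ * Aj j) ≤ I₀ * A * (1 - ∑ j ∈ s, c j * e j)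

/-- (CA, assume `h7 : StC7`, `hS : StWFS`, `hX : StWFX`, `hJ : StWFJ`, `hMB : StMSB`, `hI : StINQ`.) C7 for families of weights; `ω = 1 / (4000 u)`,
`θ = j0 ω`, `δ = 1 / 1000`. PROOF. `4492 u ω = 9/8 - 2 δ`. (1) `WF` with `M = a ^ (1 - δ)`, `N = a ^ (1/8 - δ)`, and `Sp` implies `Rg`
(`p ≥ a ^ (i ω) ≥ a ^ (j0 ω)`), then C7. (2) By WFJ (`(j + 1) ω ≤ 3996 u ω = 1 - δ`,
`(4492 u - (j + 1)) ω + (j + 1) ω = 9/8 - 2 δ`) the weights `bm a ω j (Lam a)` satisfy the hypothesis of C7 (`B ≥ 0` because a decomposition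
exists); INQ gives the divisor sums and MSB the main term. -/
def StCA : Prop := ∀ f : ℕ, ∃ θ₁ : ℝ, 0 < θ₁ ∧ ∀ u j0 : ℕ, 1 ≤ u → 1 ≤ j0 → j0 ≤ 1123 * u →
  (j0 : ℝ) * (1 / (4000 * u)) ≤ θ₁ → ∃ κ : ℝ, 0 < κ ∧
  (∀ (T : ℕ) (B : ℝ) (Lam : ℕ → ℕ → ℝ),
    (∀ᶠ a : ℕ in atTop, WF a (1 / (4000 * u)) j0 (1123 * u) (((4492 * u : ℕ) : ℝ) * (1 / (4000 * u))) T B
      (Lam a)) →
    ∀ᶠ a : ℕ in atTop, ∀ i b0 : ℕ, b0 < 30 →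
      |∑ b ∈ (B1 a ((j0 : ℝ) * (1 / (4000 * u)))).filter (fun b => b % 30 = b0),
        th i a ((j0 : ℝ) * (1 / (4000 * u))) f b * ∑ q ∈ (a * b + 1).divisors, Lam a q -
        ((Bb a).card : ℝ) / 30 * TH i a ((j0 : ℝ) * (1 / (4000 * u))) f * ms a (Lam a)| ≤
      (a : ℝ) ^ (1 - κ)) ∧
  (∀ (T : ℕ) (B : ℝ) (Lam : ℕ → ℕ → ℝ) (j : ℕ), 1123 * u ≤ j → j < 3996 * u →
    (∀ᶠ a : ℕ in atTop, WF a (1 / (4000 * u)) j0 (1123 * u)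
      (((4492 * u - (j + 1) : ℕ) : ℝ) * (1 / (4000 * u))) T B (Lam a)) →
    ∀ᶠ a : ℕ in atTop, ∀ i b0 : ℕ, b0 < 30 →
      |∑ b ∈ (B1 a ((j0 : ℝ) * (1 / (4000 * u)))).filter (fun b => b % 30 = b0),
        th i a ((j0 : ℝ) * (1 / (4000 * u))) f b *
          ((ej a (1 / (4000 * u)) j (a * b + 1) : ℝ) * ∑ q ∈ (a * b + 1).divisors, Lam a q) -
        ((Bb a).card : ℝ) / 30 * TH i a ((j0 : ℝ) * (1 / (4000 * u))) f *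
          ((∑ p ∈ bx a (1 / (4000 * u)) j, (1 : ℝ) / p) * ms a (Lam a))| ≤
      (a : ℝ) ^ (1 - κ))

/-- (C10, assume `hFS : StFS`, `hA : StCA`, `hV : StVL`, `h8 : StC8`, `h9 : StC9`, `hM : StMER`, `hPO : StPOS`.) PROOF. `f` from C8 (called
`u` there), `θ₁` from CA; FS for `min(θ₁, 1/100)` gives `u`, `j0` and the weights `Lam⁻`, `Lam⁺`, `Lam_j`; `ω = 1 / (4000 u)`,
`θ = j0 ω`. For `b ∈ B1 a θ`, `b % 30 = b0`, use C9 with `I₀ = q0`, `A = ind` at `a b + 1`, `t₀ = th 0`, `t₁ = th 1` (C8), `Am`, `Ap` the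
divisor sums of `Lam⁻`, `Lam⁺` at `a b + 1`, `e j = ej`, `Aj j = e j ∑ Lam_j ≥ e j A`, `c j = (10021 / 10000)(1 - j / (3996 u)) ≥ 0`. Sum over
`b` and apply CA to every sum (finitely many families). With `V = ∏ (1 - ga)`, `m^± = ms a (Lam^±)`, `m_j = ms a (Lam_j)`,
`G_j = ∑_{p ∈ bx j} 1 / p → gm j` the main term is
`(|Bb a| / 30) (TH₀ m⁻ + (TH₁ - TH₀) m⁺ - ∑ c_j TH₀ G_j m_j)`, `V ≤ TH₀ ≤ 1.001 V`, `TH₁ - TH₀ ≥ - 0.002 V`. As `μp, μ_j ≥ 0` (POS) and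
the number of FS is positive, `μm > 0`, so `m⁻ > 0` for large `a`, and for every `η > 0` the main term is for large `a` at least
`(|Bb a| / 30) V (μm - 0.002 μp - 1.001 ∑ c_j gm j μ_j - η)`. Choose `η` half of the number of FS. Finally `V ≥ c / (log a) ^ 3` (VL),
`|Bb a| ≥ a / 5`, and the errors are at most `C a ^ (1 - κ)`. -/
def StC10 : Prop := ∃ u j0 : ℕ, 1 ≤ u ∧ 1 ≤ j0 ∧ j0 ≤ 1123 * u ∧ ∃ c : ℝ, 0 < c ∧ ∃ a₀ : ℕ, ∀ a b0 : ℕ,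
  a₀ ≤ a → b0 < 30 → c * a / Real.log a ^ 3 ≤
    ∑ b ∈ (B1 a ((j0 : ℝ) * (1 / (4000 * u)))).filter (fun b => b % 30 = b0),
      q0 a ((j0 : ℝ) * (1 / (4000 * u))) b *
      ind a (1 / (4000 * u)) j0 (1123 * u) (a * b + 1) *
      (1 - ∑ j ∈ Ico (1123 * u) (3996 * u), 10021 / 10000 * (1 - (j : ℝ) / (3996 * u)) *
        (ej a (1 / (4000 * u)) j (a * b + 1) : ℝ))

/-- (FIN, assume `h10 : StC10`, `h1 : StC1`, `hPT : StPT`.) PROOF. `a = n - 1`, `b0` from C1. Every summand of C10 is at most `1`, and if it is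
positive then: no prime `p < a ^ θ` divides `Fb a b` (C1, `Qs`), no prime of a box `j0 ≤ i < 1123 u` divides `a b + 1` (such primes do not divide
`a`), and no `p ^ 2` divides `a b + 1` (`p < a ^ θ` impossible, `B1`); so all prime factors of `a b + 1` are
`≥ a ^ (1123 u ω)` and PT gives `Ω(a b + 1) ≤ 2`. `0 < QQ a b ≤ 4 a ^ 3` has only prime factors `≥ a ^ θ`, so at most
`R = ⌈4 / θ⌉` of them for large `a`. So there are at least `c a / (log a) ^ 3 ≥ n / (log n) ^ 4` such `b`; `y = b - 1` satisfies `0 < y < n`,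
`(n - y) + n y = a b + 1`, `(n - y) ^ 2 + n y ^ 2 = QQ a b`. -/
def StFIN : Prop := ∃ R N₀ : ℕ, ∀ n : ℕ, N₀ ≤ n → (n : ℝ) / Real.log n ^ 4 ≤ ((ys R n).card : ℝ)

end Pool.Agent.Helper9.TW
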